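import Pool.Agent.W894.HT.Gr

/-!
# Project HT, second part: odd moduli (definitions and statements)

Mathlib only.
-/

namespace Pool.Agent.W894.HT

/-! ## E. Blocks -/

/-- product of the weights of the steps of a word -/
def ch {A : Type} [CommRing A] (φ : ℕ → ℕ → A) : List ℕ → A
  | a :: b :: l => ((if a < b then 1 else 0) + φ a b) * ch φ (b :: l)
  | _ => 1

/-- sum over the orders of `W` -/
def AS {A : Type} [CommRing A] (φ : ℕ → ℕ → A) (W : List ℕ) : A :=
  (W.permutations'.map (ch φ)).sum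

/-- sum over the pairs (word ending with `v`, word) on `Y` and `v` -/
def NN {A : Type} [CommRing A] (φ : ℕ → ℕ → A) (v : ℕ) (Y : List ℕ) : A :=
  (Y.sublists'.map fun S => (S.permutations'.map fun l => ch φ (l ++ [v])).sum *
    AS φ (Y.filter fun y => decide (y ∉ S))).sum

/-- the last step goes to infinity -/
def ftop {A : Type} (G : (ℕ → ℕ) → A) (u : ℕ) (κ : ℕ → ℕ) : A := G (fun c => κ c + low u c)

/-- HEAD: splitting off the first letter. -/
def S_HEAD : Prop := ∀ (A : Type) [CommRing A] (φ : ℕ → ℕ → A) (fin : ℕ → (ℕ → ℕ) → A)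
  (W : List ℕ) (x : ℕ) (κ : ℕ → ℕ), W.Nodup → W ≠ [] →
  (W.permutations'.map fun l => Rr φ fin x l κ).sum =
    (W.map fun w =>
      (if x < w then ((W.erase w).permutations'.map fun l =>
        Rr φ fin w l (fun z => κ z + itv x w z)).sum else 0) +
      φ x w * ((W.erase w).permutations'.map fun l => Rr φ fin w l κ).sum).sum

/-- BLOCK: eliminating a top block `v, Y` with one spacer at `z` below it. -/
def S_BLOCK : Prop := ∀ (A : Type) [CommRing A] (φ : ℕ → ℕ → A) (G : (ℕ → ℕ) → A)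
  (z v x : ℕ) (Y V : List ℕ), (v :: (Y ++ V)).Nodup → x < z → (∀ u ∈ V, u < z) → x ∉ V →
  z < v → (∀ y ∈ Y, z < y) →
  (∀ y ∈ Y, ∀ u, u ∈ V ∨ u = x → φ u y = 0 ∧ φ y u = 0) →
  (∀ ρ ρ' : ℕ → ℕ, (∀ c, c < z → ρ c = ρ' c) → G ρ = G ρ') →
  2 * NN φ v Y = 0 →
  PS φ (fun u κ => ((κ z + low u z : ℕ) : A) * ftop G u κ) x (v :: (Y ++ V)) =
    AS φ (v :: Y) * PS φ (ftop G) x V +
      AS φ Y * (PS (A := DualNumber A) (dl φ v)
        (fun u κ => TrivSqZeroExt.inl (ftop G u κ)) x V).snd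

/-- weight of the path `x, l, e` (any type of vertices) -/
def wtg {N A : Type} [CommRing A] (φ : N → N → A) (e : N) : N → List N → A
  | x, [] => φ x e
  | x, v :: l => φ x v * wtg φ e v l

/-- detours through `v` -/
def dlg {N A : Type} [CommRing A] (φ : N → N → A) (v a b : N) : DualNumber A :=
  TrivSqZeroExt.inl (φ a b) + TrivSqZeroExt.inr (φ a v * φ v b)

/-- paths from `x` to `e` with interior in `V`: weight `a` for each unused vertex, `b` for each
interior vertex -/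
def PQ {N A : Type} [CommRing A] (a b : A) (φ : N → N → A) (x e : N) (V : List N) : A :=
  (V.sublists'.map fun S => (S.permutations'.map fun l =>
    a ^ (V.length - l.length) * b ^ l.length * wtg φ e x l).sum).sum

/-- paths from `x` to `e` with interior in `V`: weight `r` for each interior vertex -/
def PR {N A : Type} [CommRing A] (r : A) (φ : N → N → A) (x e : N) (V : List N) : A :=
  (V.sublists'.map fun S => (S.permutations'.map fun l =>
    r ^ l.length * wtg φ e x l).sum).sum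

/-- QSTEP -/
def S_QSTEP : Prop := ∀ (N A : Type) [CommRing A] (a b : A) (φ : N → N → A) (x e v : N)
  (V : List N), PQ a b φ x e (v :: V) =
    a * (PQ (TrivSqZeroExt.inl a) (TrivSqZeroExt.inl b) (dlg φ v) x e V).fst +
    b * (PQ (TrivSqZeroExt.inl a) (TrivSqZeroExt.inl b) (dlg φ v) x e V).snd

/-- the vertex of the block number `j` (blocks of size `s` above the position `3`) -/
def vj (s j : ℕ) : ℕ := 3 + s * (j + 1)

/-- the private vertices of the block number `j` -/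
def blk (s j : ℕ) : List ℕ := List.range' (3 + s * j + 2) (s - 2)

/-- all blocks -/
def Bl (s : ℕ) : ℕ → List ℕ
  | 0 => []
  | m + 1 => vj s m :: (blk s m ++ Bl s m)

/-- the vertices of the blocks -/
def Vl (s : ℕ) : ℕ → List ℕ
  | 0 => []
  | m + 1 => vj s m :: Vl s m

/-- the factors of the spacers -/
def Gm {A : Type} [CommRing A] (s : ℕ) : ℕ → (ℕ → ℕ) → A
  | 0, ρ => (ρ 2 : A)
  | m + 1, ρ => (ρ (3 + s * m + 1) : A) * Gm s m ρ

/-- block structure of the weights: private vertices only see their block, and inside a block the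
weights are `ψ` -/
def BLw {A : Type} [CommRing A] (s m : ℕ) (ψ φ : ℕ → ℕ → A) : Prop :=
  (∀ j < m, ∀ y ∈ blk s j, ∀ u, u ∉ blk s j → u ≠ vj s j → φ u y = 0 ∧ φ y u = 0) ∧
  (∀ j < m, ∀ i i', 2 ≤ i → i ≤ s → 2 ≤ i' → i' ≤ s → (i ≠ s ∨ i' ≠ s) →
    φ (3 + s * j + i) (3 + s * j + i') = ψ i i')

/-- EVG -/
def S_EVG : Prop := ∀ (m s : ℕ) (A : Type) [CommRing A] (φ ψ : ℕ → ℕ → A) (a b : A), 2 ≤ s →
  BLw s m ψ φ → (∀ u, φ 0 u = 0) → AS ψ (List.range' 2 (s - 1)) = a →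
  AS ψ (List.range' 2 (s - 2)) = b → 2 * NN ψ s (List.range' 2 (s - 2)) = 0 →
  PS φ (ftop (Gm s m)) 0 (Bl s m ++ [3, 1]) = a ^ m + 2 * PQ a b φ 3 1 (Vl s m) ∧
  PS φ (ftop (Gm s m)) 3 (Bl s m ++ [1]) = PQ a b φ 3 1 (Vl s m)

/-! ## F. The tournament of an external graph on indices -/

/-- block number and offset of a position -/
def bj (s p : ℕ) : ℕ := (p - 4) / s

/-- offset of a position in its block (from `1` to `s`) -/
def ofs (s p : ℕ) : ℕ := p - 3 - s * bj s p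

/-- position of the graph vertex with index `i` -/
def ipos (s : ℕ) : ℕ → ℕ
  | 0 => 1
  | 1 => 3
  | j + 2 => vj s j

/-- index of a position, if it is a graph vertex -/
def ix (s p : ℕ) : Option ℕ :=
  if p = 1 then some 0 else if p = 3 then some 1
  else if 4 ≤ p ∧ ofs s p = s then some (bj s p + 2) else none

/-- pairs of indices joined -/
def exO (ext : ℕ → ℕ → Bool) : Option ℕ → Option ℕ → Bool
  | some i, some j => ext i j
  | _, _ => false

/-- the reversed pairs of positions -/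
def Fg (s : ℕ) (Fi ext : ℕ → ℕ → Bool) (p q : ℕ) : Bool :=
  exO ext (ix s p) (ix s q) ||
    (decide (4 ≤ p) && decide (4 ≤ q) && decide (bj s p = bj s q) && Fi (ofs s p) (ofs s q))

/-- the tournament with `3 + s * m` vertices -/
def TMg (s : ℕ) (Fi ext : ℕ → ℕ → Bool) (m : ℕ) : List (List Bool) :=
  (List.range (3 + s * m)).map fun i => (List.range (3 + s * m)).map fun j =>
    if i < j then !Fg s Fi ext (i + 1) (j + 1)
    else if j < i then Fg s Fi ext (i + 1) (j + 1) else false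

/-- the indices `m + 1, ..., 2` -/
def Ix : ℕ → List ℕ
  | 0 => []
  | m + 1 => (m + 2) :: Ix m

/-- the inner graph of a block: symmetric, on the offsets `2, ..., s` -/
def FiOk (s : ℕ) (Fi : ℕ → ℕ → Bool) : Prop :=
  (∀ i j, Fi i j = Fi j i) ∧ ∀ i j, Fi i j = true → 2 ≤ i ∧ i ≤ s ∧ 2 ≤ j ∧ j ≤ s ∧ i ≠ j

/-- TG -/
def S_TG : Prop := ∀ (s : ℕ) (Fi ext : ℕ → ℕ → Bool) (m : ℕ) (A : Type) [CommRing A] (a b : A),
  2 ≤ s → FiOk s Fi → (∀ i j, ext i j = ext j i) → (∀ i, ext i i = false) →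
  AS (A := A) (phi Fi) (List.range' 2 (s - 1)) = a →
  AS (A := A) (phi Fi) (List.range' 2 (s - 2)) = b →
  2 * NN (A := A) (phi Fi) s (List.range' 2 (s - 2)) = 0 →
  IsTour (TMg s Fi ext m) ∧
  (numHP (TMg s Fi ext m) : A) = a ^ m + 2 * PQ a b (phi ext) 1 0 (Ix m) ∧
  (numHS (TMg s Fi ext m) 2 : A) = PQ a b (phi ext) 1 0 (Ix m)

/-- size of the blocks for the prime `p` -/
def bsz (p : ℕ) : ℕ := if p = 3 then 6 else p + 1

/-- inner graph of the blocks for the prime `p` -/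
def Fp (p i j : ℕ) : Bool :=
  (decide (i = 2) && decide (j = bsz p)) || (decide (j = 2) && decide (i = bsz p)) ||
  (decide (p = 3) && ((decide (i = 2) && decide (j = 5)) || (decide (j = 2) && decide (i = 5))))

/-- LOC: the blocks for the odd prime `p`. -/
def S_LOC : Prop := ∀ (p : ℕ) [Fact p.Prime], p ≠ 2 →
  AS (A := ZMod p) (phi (Fp p)) (List.range' 2 (bsz p - 1)) ≠ 0 ∧
  AS (A := ZMod p) (phi (Fp p)) (List.range' 2 (bsz p - 2)) ≠ 0 ∧
  NN (A := ZMod p) (phi (Fp p)) (bsz p) (List.range' 2 (bsz p - 2)) = 0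

/-! ## G. Subdivision -/

/-- the number in its path of the chain vertex with offset `t`: for positive edges the first two
are exchanged -/
def zn (neg : Bool) (t : ℕ) : ℕ := if neg = true then t else if t = 0 then 1
  else if t = 1 then 0 else t

/-- one direction of the adjacency: indices below `n0` are old vertices, the edge number `k` is
replaced by a path with the `L` new vertices `n0 + L * k, ..., n0 + L * k + L - 1` -/
def subR (n0 L : ℕ) (El : List (ℕ × ℕ × Bool)) (i j : ℕ) : Bool :=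
  decide (n0 ≤ j) && match El[(j - n0) / L]? with
    | none => false
    | some (u, w, neg) =>
      if i < n0 then (decide (i = u) && decide (zn neg ((j - n0) % L) = 0)) ||
        (decide (i = w) && decide (zn neg ((j - n0) % L) = L - 1))
      else decide ((i - n0) / L = (j - n0) / L) &&
        decide (zn neg ((i - n0) % L) + 1 = zn neg ((j - n0) % L))

/-- adjacency of the subdivided graph -/
def subF (n0 L : ℕ) (El : List (ℕ × ℕ × Bool)) (i j : ℕ) : Bool :=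
  subR n0 L El i j || subR n0 L El j i

/-- signed adjacency of a list of signed edges (`true` for negative edges) -/
def gw {N A : Type} [DecidableEq N] [CommRing A] (E : List (N × N × Bool)) (u v : N) : A :=
  (E.map fun t => if (t.1 = u ∧ t.2.1 = v) ∨ (t.1 = v ∧ t.2.1 = u) then
    (if t.2.2 = true then (-1 : A) else 1) else 0).sum

/-- SUB -/
def S_SUB : Prop := ∀ (A : Type) [CommRing A] (r : A) (n0 L : ℕ) (El : List (ℕ × ℕ × Bool)),
  2 ≤ n0 → 3 ≤ L → L % 2 = 1 → (∀ t ∈ El, t.1 < n0 ∧ t.2.1 < n0 ∧ t.1 ≠ t.2.1) →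
  El.Pairwise (fun t t' => ¬ ((t.1 = t'.1 ∧ t.2.1 = t'.2.1) ∨ (t.1 = t'.2.1 ∧ t.2.1 = t'.1))) →
  PR r (phi (subF n0 L El)) 1 0 (Ix (n0 - 2 + L * El.length)) =
    PR r (fun i j => r ^ L * gw El i j) 1 0 (Ix (n0 - 2))

/-- SCALE -/
def S_SCALE : Prop := (∀ (N A : Type) [CommRing A] (r : A) (L : ℕ) (g : N → N → A) (x e : N)
    (V : List N), r ^ (L + 1) = 1 →
    PR r (fun i j => r ^ L * g i j) x e V = r ^ L * PR 1 g x e V) ∧
  (∀ (N K : Type) [Field K] (a b : K) (φ : N → N → K) (x e : N) (V : List N), a ≠ 0 →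
    PQ a b φ x e V = a ^ V.length * PR (b / a) φ x e V) ∧
  (∀ (N N' A : Type) [CommRing A] (r : A) (φ : N' → N' → A) (f : N → N') (x e : N) (V : List N),
    PR r φ (f x) (f e) (V.map f) = PR r (fun u v => φ (f u) (f v)) x e V) ∧
  (∀ (N A : Type) [CommRing A] (r : A) (φ : N → N → A) (x e : N) (V V' : List N),
    V.Perm V' → PR r φ x e V = PR r φ x e V') ∧
  (∀ (N A : Type) [CommRing A] (r : A) (φ : N → N → A) (x e : N) (V D : List N),
    x ∉ D → (∀ d ∈ D, ∀ u, φ u d = 0 ∧ φ d u = 0) → PR r φ x e (V ++ D) = PR r φ x e V)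

/-! ## H. The signed graph -/

/-- signed edges of a gadget -/
def gS (k : ℕ) (α : Bool) (i : ℕ) (a : Lb) : List (Nm × Nm × Bool) :=
  [(rv k α i, rv k α (i + 1), false), (rv k α i, yv k α i, true), (yv k α i, xv k α i, false),
    (xv k α i, rv k α (i + 1), false), (sh a, xv k α i, false), (sh a, yv k α i, true)]

/-- signed edges of a route; `n` is the sign of the first edge -/
def rS (k : ℕ) (α : Bool) (n : Bool) (L : List Lb) : List (Nm × Nm × Bool) :=
  (hub k, rv k α 0, n) :: (L.zipIdx.flatMap fun p => gS k α p.2 p.1) ++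
    [(rv k α L.length, hub (k + 1), false)]

/-- all signed edges: in the stages with `τ k = true` the second route is negative -/
def sE (S : Stg) (τ : ℕ → Bool) : List (Nm × Nm × Bool) :=
  S.zipIdx.flatMap fun p => rS p.2 false false p.1.1 ++ rS p.2 true (τ p.2) p.1.2

/-- all lists of `n` bits -/
def allB : ℕ → List (List Bool)
  | 0 => [[]]
  | n + 1 => (allB n).map (List.cons false) ++ (allB n).map (List.cons true)

/-- sign of a choice -/
def sgb (τ : ℕ → Bool) : ℕ → List Bool → ℤ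
  | k, b :: bs => (if b = true ∧ τ k = true then -1 else 1) * sgb τ (k + 1) bs
  | _, [] => 1

/-- signed number of choices without a repeated label -/
def snc (S : Stg) (τ : ℕ → Bool) : ℤ :=
  ((allB S.length).map fun bs => if (lbs S bs).Nodup then sgb τ 0 bs else 0).sum

/-- weight of a word: product of the weights of its steps -/
def cw {N : Type} (g : N → N → ℤ) : List N → ℤ
  | a :: b :: l => g a b * cw g (b :: l)
  | _ => 1

open Classical in
/-- WTOG: toggling with weights that cancel. -/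
def S_WTOG : Prop := ∀ (N : Type) (Q : Finset (List N)) (ω : List N → ℤ) (u v : N) (w : List N),
  w ≠ [] → u ≠ v → (∀ l ∈ Q, l.Nodup) →
  (∀ A B : List N, (A ++ u :: v :: B ∈ Q ∧ ∀ z ∈ w, z ∉ A ++ u :: v :: B) ↔
    A ++ u :: (w ++ v :: B) ∈ Q) →
  (∀ A B : List N, (A ++ v :: u :: B ∈ Q ∧ ∀ z ∈ w, z ∉ A ++ v :: u :: B) ↔
    A ++ v :: (w.reverse ++ u :: B) ∈ Q) →
  (∀ A B : List N, A ++ u :: (w ++ v :: B) ∈ Q →
    ω (A ++ u :: (w ++ v :: B)) = - ω (A ++ u :: v :: B)) →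
  (∀ A B : List N, A ++ v :: (w.reverse ++ u :: B) ∈ Q →
    ω (A ++ v :: (w.reverse ++ u :: B)) = - ω (A ++ v :: u :: B)) →
  ∑ l ∈ Q, ω l = ∑ l ∈ Q.filter (fun l =>
    ¬ (([u, v] <:+: l ∨ [v, u] <:+: l) ∧ ∀ z ∈ w, z ∉ l) ∧
    ¬ (u :: (w ++ [v]) <:+: l ∨ v :: (w.reverse ++ [u]) <:+: l)), ω l

open Classical in
/-- WGAD: one gadget with weights. -/
def S_WGAD : Prop := ∀ (N : Type) (Q : Finset (List N)) (g : N → N → ℤ) (p q a x y : N),
  [p, q, a, x, y].Nodup → (∀ u v, g u v = g v u) →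
  g y a + g y x * g x a = 0 → g x a + g x y * g y a = 0 → g p q + g p y * g y x * g x q = 0 →
  (∀ l ∈ Q, l.Nodup) →
  (∀ l ∈ Q, l.head? ≠ some x ∧ l.head? ≠ some y ∧ l.getLast? ≠ some x ∧ l.getLast? ≠ some y) →
  (∀ l ∈ Q, ∀ b, ([b, x] <:+: l ∨ [x, b] <:+: l) → b = y ∨ b = q ∨ b = a) →
  (∀ l ∈ Q, ∀ b, ([b, y] <:+: l ∨ [y, b] <:+: l) → b = x ∨ b = p ∨ b = a) →
  (∀ A B : List N, (A ++ y :: a :: B ∈ Q ∧ x ∉ A ++ y :: a :: B) ↔ A ++ y :: x :: a :: B ∈ Q) →
  (∀ A B : List N, (A ++ a :: y :: B ∈ Q ∧ x ∉ A ++ a :: y :: B) ↔ A ++ a :: x :: y :: B ∈ Q) →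
  (∀ A B : List N, (A ++ x :: a :: B ∈ Q ∧ y ∉ A ++ x :: a :: B) ↔ A ++ x :: y :: a :: B ∈ Q) →
  (∀ A B : List N, (A ++ a :: x :: B ∈ Q ∧ y ∉ A ++ a :: x :: B) ↔ A ++ a :: y :: x :: B ∈ Q) →
  (∀ A B : List N, (A ++ p :: q :: B ∈ Q ∧ x ∉ A ++ p :: q :: B ∧ y ∉ A ++ p :: q :: B) ↔
    A ++ p :: y :: x :: q :: B ∈ Q) →
  (∀ A B : List N, (A ++ q :: p :: B ∈ Q ∧ x ∉ A ++ q :: p :: B ∧ y ∉ A ++ q :: p :: B) ↔
    A ++ q :: x :: y :: p :: B ∈ Q) →
  ∑ l ∈ Q, cw g l = ∑ l ∈ Q.filter (fun l => CL p q a x y l), cw g l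

/-- GW: the weights are `1`, `-1` on the edges, `0` elsewhere; in each gadget they cancel. -/
def S_GW : Prop := ∀ (S : Stg) (τ : ℕ → Bool),
  (∀ u v, gw (A := ℤ) (sE S τ) u v = gw (sE S τ) v u) ∧
  (∀ u v, adS S u v = false → gw (A := ℤ) (sE S τ) u v = 0) ∧
  (∀ t ∈ sE S τ, gw (A := ℤ) (sE S τ) t.1 t.2.1 = if t.2.2 = true then -1 else 1) ∧
  (∀ g ∈ gads S,
    gw (A := ℤ) (sE S τ) (yv g.1 g.2.1 g.2.2.1) (sh g.2.2.2) = -1 ∧
    gw (A := ℤ) (sE S τ) (yv g.1 g.2.1 g.2.2.1) (xv g.1 g.2.1 g.2.2.1) = 1 ∧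
    gw (A := ℤ) (sE S τ) (xv g.1 g.2.1 g.2.2.1) (sh g.2.2.2) = 1 ∧
    gw (A := ℤ) (sE S τ) (rv g.1 g.2.1 g.2.2.1) (rv g.1 g.2.1 (g.2.2.1 + 1)) = 1 ∧
    gw (A := ℤ) (sE S τ) (rv g.1 g.2.1 g.2.2.1) (yv g.1 g.2.1 g.2.2.1) = -1 ∧
    gw (A := ℤ) (sE S τ) (xv g.1 g.2.1 g.2.2.1) (rv g.1 g.2.1 (g.2.2.1 + 1)) = 1)

open Classical in
/-- WCLEAN -/
def S_WCLEAN : Prop := ∀ (S : Stg) (τ : ℕ → Bool) (Q : Finset (List Nm)), S ≠ [] →
  (∀ l, l ∈ Q ↔ isP S l) →
  ∑ l ∈ Q, cw (gw (sE S τ)) l =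
    ∑ l ∈ Q.filter (fun l => ∀ g ∈ gads S, cln g l), cw (gw (sE S τ)) l

/-- WPTH: the sign of the path of a choice. -/
def S_WPTH : Prop := ∀ (S : Stg) (τ : ℕ → Bool) (bs : List Bool), bs.length = S.length →
  (lbs S bs).Nodup → cw (gw (sE S τ)) (pth 0 S bs) = sgb τ 0 bs

/-- WGRAPH: the signed number of simple paths between the first and the last hub. -/
def S_WGRAPH : Prop := ∀ (S : Stg) (τ : ℕ → Bool) (rest : List Nm), S ≠ [] →
  (hub 0 :: hub S.length :: rest).Nodup →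
  (∀ p ∈ EE S, p.1 ∈ hub 0 :: hub S.length :: rest ∧ p.2 ∈ hub 0 :: hub S.length :: rest) →
  PR 1 (gw (sE S τ)) (hub 0) (hub S.length) rest = snc S τ

end Pool.Agent.W894.HT
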