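import Pool.Agent.W894.HT.Fin2
import Pool.Agent.W894.HT.MDefs

/-!
# Project HT, second part: complexity (definitions and statements)
-/

namespace Pool.Agent.W894.HT

open Pool.Agent.NPC Pool.Agent.NPC.Cnt

/-- languages decidable in polynomial time -/
def InP (L : Set (List Bool)) : Prop :=
  ∃ F : List Bool → List Bool, PolyTime F ∧ ∀ x, x ∈ L ↔ F x = [true]

/-- names of isolated vertices -/
def dum (n : ℕ) : List Nm := (List.range n).map fun i => (5, i, 0, 0, false)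

/-- length of the subdivisions for the prime `p` -/
def Lp (p : ℕ) : ℕ := 2 * p - 3

/-- number of isolated vertices -/
def Dn (p : ℕ) (S : Stg) (τ : ℕ → Bool) : ℕ :=
  (p - 2) * ((restS S).length + Lp p * (sE S τ).length)

/-- the vertices of the signed graph, the target and the source first -/
def W0 (p : ℕ) (S : Stg) (τ : ℕ → Bool) : List Nm :=
  hub S.length :: hub 0 :: (restS S ++ dum (Dn p S τ))

/-- the signed edges between indices -/
def El (p : ℕ) (S : Stg) (τ : ℕ → Bool) : List (ℕ × ℕ × Bool) :=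
  (sE S τ).map fun t => ((W0 p S τ).idxOf t.1, (W0 p S τ).idxOf t.2.1, t.2.2)

/-- the number of blocks -/
def mm (p : ℕ) (S : Stg) (τ : ℕ → Bool) : ℕ :=
  (W0 p S τ).length - 2 + Lp p * (El p S τ).length

/-- the tournament for the prime `p` -/
def TMp (p : ℕ) (S : Stg) (τ : ℕ → Bool) : List (List Bool) :=
  TMg (bsz p) (Fp p) (subF (W0 p S τ).length (Lp p) (El p S τ)) (mm p S τ)

/-- the stages with a negative second route: the clauses -/
def tau (φ : CNF ℕ) (k : ℕ) : Bool := decide ((ddg (φ.flatten.map Prod.snd)).length < k)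

/-- CAST -/
def S_CAST : Prop := ∀ (A N : Type) [CommRing A] [DecidableEq N] (E : List (N × N × Bool))
  (x e : N) (V : List N),
  ((PR (A := ℤ) 1 (gw E) x e V : ℤ) : A) = PR (A := A) 1 (gw E) x e V

/-- IDX -/
def S_IDX : Prop := ∀ (A N : Type) [CommRing A] [DecidableEq N] (E : List (N × N × Bool))
  (x e : N) (V : List N), (e :: x :: V).Nodup →
  (∀ t ∈ E, t.1 ∈ e :: x :: V ∧ t.2.1 ∈ e :: x :: V) →
  PR (A := A) 1 (gw (E.map fun t =>
    ((e :: x :: V).idxOf t.1, (e :: x :: V).idxOf t.2.1, t.2.2))) 1 0 (Ix V.length) =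
    PR (A := A) 1 (gw E) x e V

/-- WOK -/
def S_WOK : Prop := ∀ (p : ℕ) (S : Stg) (τ : ℕ → Bool), S ≠ [] →
  (W0 p S τ).Nodup ∧
  (∀ t ∈ sE S τ, t.1 ∈ W0 p S τ ∧ t.2.1 ∈ W0 p S τ) ∧
  (∀ t ∈ El p S τ, t.1 < (W0 p S τ).length ∧ t.2.1 < (W0 p S τ).length ∧ t.1 ≠ t.2.1) ∧
  (El p S τ).Pairwise
    (fun t t' => ¬ ((t.1 = t'.1 ∧ t.2.1 = t'.2.1) ∨ (t.1 = t'.2.1 ∧ t.2.1 = t'.1))) ∧
  ∀ (A : Type) [CommRing A], ∀ d ∈ dum (Dn p S τ), ∀ u,
    gw (A := A) (sE S τ) u d = 0 ∧ gw (A := A) (sE S τ) d u = 0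

/-- MPT: the tournament for the prime `p`. -/
def S_MPT : Prop := ∀ (p : ℕ) [Fact p.Prime], p ≠ 2 → ∀ (S : Stg) (τ : ℕ → Bool), S ≠ [] →
  IsTour (TMp p S τ) ∧ ∃ r : ZMod p, r ≠ 0 ∧
    (numHP (TMp p S τ) : ZMod p) = 1 + 2 * (r * (snc S τ : ZMod p)) ∧
    (numHS (TMp p S τ) 2 : ZMod p) = r * (snc S τ : ZMod p)

/-- SCNF: the signed number of choices is the number of satisfying assignments. -/
def S_SCNF : Prop := ∀ φ : CNF ℕ, snc (stg φ) (tau φ) = (satCount φ : ℤ)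

/-- PTMP -/
def S_PTMP : Prop := ∀ p : ℕ, Poly (fun φ : CNF ℕ => TMp p (stg φ) (tau φ))

open Classical in
/-- MEMP -/
def S_MEMP : Prop := ∀ c : ℕ,
  SharpP (strFn fun A : List (List Bool) => if IsTour A then numHP A + c else 0)

/-- CHK -/
def S_CHK : Prop := ∀ (k : ℕ) (f : List Bool → ℕ), SharpP f → SharpP (fun x => (f x).choose k)

/-- DIG -/
def S_DIG : Prop := ∀ p : ℕ, p.Prime → (∀ L, InModP p L → InP L) →
  ∀ f : List Bool → ℕ, SharpP f → FP (fun x => f x % p)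

/-- LUCAS -/
def S_LUCAS : Prop := ∀ p : ℕ, p.Prime → (∀ f : List Bool → ℕ, SharpP f → FP (fun x => f x % p)) →
  ∀ (k : ℕ) (f : List Bool → ℕ), SharpP f → FP (fun x => f x % p ^ k)

/-- CRT -/
def S_CRT : Prop := ∀ (f : List Bool → ℕ) (a b : ℕ), 0 < a → 0 < b → a.Coprime b →
  FP (fun x => f x % a) → FP (fun x => f x % b) → FP (fun x => f x % (a * b))

/-- MODM -/
def S_MODM : Prop := ∀ f : List Bool → ℕ, SharpP f → ∀ m : ℕ, 0 < m →
  (∀ p : ℕ, p.Prime → p ∣ m → ∀ L, InModP p L → InP L) → FP (fun x => f x % m)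

/-- ODD -/
def S_ODD : Prop := ∀ (f : List Bool → ℕ) (m : ℕ), m % 2 = 1 → FP (fun x => f x % m) →
  ∃ g : List Bool → ℕ, FP g ∧ ∀ x, f x % 2 = 1 → g x = f x % (2 * m)

/-- FWD -/
def S_FWD : Prop := ∀ (β : Type) [TEnc β] (f : β → ℕ) (D : β → Prop) (T : CNF ℕ → β)
  (p q m c : ℕ), Poly T → (∀ φ, D (T φ)) → 0 < m → q ∣ m →
  (∀ φ, satCount φ % p ≠ 0 ↔ f (T φ) % q ≠ c) →
  (∃ F : List Bool → List Bool, PolyTime F ∧ ∀ b, D b → F (bits b) = (f b % m).bits) →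
  ∀ L, InModP p L → InP L

end Pool.Agent.W894.HT
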