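import Mathlib

/-!
# Project HT: Hamiltonian paths and cycles of tournaments (definitions and statements)

Mathlib only.  Everything in this file is a definition; each `S_...` is a proposition to be proved
in a separate file.
-/

namespace Pool.Agent.W894.HT

/-! ## A. Word sums -/

/-- `1` if `z` lies strictly between `x` and `v`, else `0` -/
def itv (x v z : ℕ) : ℕ := if x < z ∧ z < v then 1 else 0

/-- `1` if `u < z`, else `0` -/
def low (u z : ℕ) : ℕ := if u < z then 1 else 0

/-- The sum over all ways of declaring each step of the word `x, l` either ascending (weight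
`[x < v]`, and it covers the positions strictly between) or a `φ`-step; `κ z` counts the ascending
steps covering `z`. -/
def Rr {A : Type} [CommRing A] (φ : ℕ → ℕ → A) (fin : ℕ → (ℕ → ℕ) → A) :
    ℕ → List ℕ → (ℕ → ℕ) → A
  | x, [], κ => fin x κ
  | x, v :: l, κ => (if x < v then Rr φ fin v l (fun z => κ z + itv x v z) else 0) +
      φ x v * Rr φ fin v l κ

/-- the sum of `Rr` over all orders of the list `V` -/
def PS {A : Type} [CommRing A] (φ : ℕ → ℕ → A) (fin : ℕ → (ℕ → ℕ) → A) (x : ℕ)
    (V : List ℕ) : A := (V.permutations'.map fun l => Rr φ fin x l (fun _ => 0)).sum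

/-- the last step to infinity, with one factor for each of the positions in `Z` -/
def finH {A : Type} [CommRing A] (Z : List ℕ) (u : ℕ) (κ : ℕ → ℕ) : A :=
  (Z.map fun z => ((κ z + low u z : ℕ) : A)).prod

/-- the last step with parity filters at the positions `4, 7, ..., 3 m + 1` and the factor at
`2` -/
def finM {A : Type} [CommRing A] : ℕ → ℕ → (ℕ → ℕ) → A
  | 0, u, κ => ((κ 2 + low u 2 : ℕ) : A)
  | m + 1, u, κ => if Odd (κ (3 * m + 4) + low u (3 * m + 4)) then finM m u κ else 0

/-- the positions of the spacers -/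
def Zt : ℕ → List ℕ
  | 0 => [2]
  | m + 1 => (3 * m + 4) :: (3 * m + 5) :: Zt m

/-- the positions of the graph vertices other than the two special ones `1` and `3` -/
def Vd : ℕ → List ℕ
  | 0 => []
  | m + 1 => (3 * m + 6) :: Vd m

/-- weights with one more possibility: the detour through `v`, counted by the dual unit -/
def dl {A : Type} [CommRing A] (φ : ℕ → ℕ → A) (v a b : ℕ) : DualNumber A :=
  TrivSqZeroExt.inl (φ a b) + TrivSqZeroExt.inr (φ a v * φ v b)

/-- weight of the path `x, l, e` -/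
def wtp {A : Type} [CommRing A] (φ : ℕ → ℕ → A) (e : ℕ) : ℕ → List ℕ → A
  | x, [] => φ x e
  | x, v :: l => φ x v * wtp φ e v l

/-- weighted sum of the simple paths from `x` to `e` with all interior vertices in `V` -/
def PP {A : Type} [CommRing A] (φ : ℕ → ℕ → A) (x e : ℕ) (V : List ℕ) : A :=
  (V.sublists'.map fun S => (S.permutations'.map fun l => wtp φ e x l).sum).sum

/-- INS: inserting an isolated vertex `z`. -/
def S_INS : Prop := ∀ (A : Type) [CommRing A] (φ : ℕ → ℕ → A) (fin : ℕ → (ℕ → ℕ) → A)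
  (e : ℕ → ℕ) (z : ℕ), (∀ u, φ u z = 0) → (∀ u, φ z u = 0) →
  (∀ u κ κ', (∀ w, w ≠ z → κ w = κ' w) → fin u κ = fin u κ') →
  (∀ u κ, u ≠ z → (if u < z then fin z (fun w => κ w + itv u z w) else 0) =
    (e u : A) * fin u κ) →
  ∀ (l : List ℕ) (x : ℕ) (κ : ℕ → ℕ), x ≠ z → z ∉ l →
    ((l.permutations'Aux z).map fun l' => Rr φ fin x l' κ).sum =
      Rr φ (fun u κ => ((κ z + e u : ℕ) : A) * fin u κ) x l κ - (κ z : A) * Rr φ fin x l κ

/-- SPACE: all the isolated vertices in `Z` (the order of the factors does not matter). -/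
def S_SPACE : Prop := ∀ (A : Type) [CommRing A] (φ : ℕ → ℕ → A) (Z V : List ℕ) (x : ℕ),
  (∀ z ∈ Z, ∀ u, φ u z = 0 ∧ φ z u = 0) → (Z ++ V).Nodup → x ∉ Z ++ V →
  PS φ (fun _ _ => 1) x (Z ++ V) = PS φ (finH Z) x V

/-- TOP: eliminating the top vertex `v`, with a parity filter at the position `z` just below. -/
def S_TOP : Prop := ∀ (A : Type) [CommRing A] (φ : ℕ → ℕ → A) (fin : ℕ → (ℕ → ℕ) → A)
  (v z : ℕ), z < v →
  (∀ u κ κ', (∀ w, w ≠ z → κ w = κ' w) → fin u κ = fin u κ') →
  (∀ u κ, u < v → fin v (fun w => κ w + itv u v w) = fin u κ) →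
  ∀ (l : List ℕ) (x : ℕ) (κ : ℕ → ℕ), x < z → (∀ u ∈ l, u < z) → κ z = 0 →
    ((l.permutations'Aux v).map fun l' =>
      Rr φ (fun u κ => if Odd (κ z + low u z) then fin u κ else 0) x l' κ).sum =
      Rr φ fin x l κ +
        (Rr (A := DualNumber A) (dl φ v) (fun u κ => TrivSqZeroExt.inl (fin u κ)) x l κ).snd

/-- DFST: the first component of the dual word sum. -/
def S_DFST : Prop := ∀ (A : Type) [CommRing A] (φ : ℕ → ℕ → A) (fin : ℕ → (ℕ → ℕ) → A)
  (v : ℕ) (l : List ℕ) (x : ℕ) (κ : ℕ → ℕ),
    (Rr (A := DualNumber A) (dl φ v) (fun u κ => TrivSqZeroExt.inl (fin u κ)) x l κ).fst =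
      Rr φ fin x l κ

/-- PSTEP: eliminating one possible interior vertex of the paths. -/
def S_PSTEP : Prop := ∀ (A : Type) [CommRing A] (φ : ℕ → ℕ → A) (x e v : ℕ) (V : List ℕ),
  PP φ x e (v :: V) = (PP (A := DualNumber A) (dl φ v) x e V).fst +
    (PP (A := DualNumber A) (dl φ v) x e V).snd

/-- EVALH -/
def S_EVALH : Prop := ∀ (m : ℕ) (A : Type) [CommRing A] (φ : ℕ → ℕ → A), (∀ u, φ 0 u = 0) →
  PS φ (finM m) 0 (Vd m ++ [3, 1]) = 1 + 2 * PP φ 3 1 (Vd m)

/-- EVALB -/
def S_EVALB : Prop := ∀ (m : ℕ) (A : Type) [CommRing A] (φ : ℕ → ℕ → A),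
  PS φ (finM m) 3 (Vd m ++ [1]) = PP φ 3 1 (Vd m)

/-- MOD4: twin spacers give squares, and a square is `1` or `0` modulo four. -/
def S_MOD4 : Prop := ∀ (m : ℕ) (φ : ℕ → ℕ → ZMod 4) (x : ℕ) (l : List ℕ),
  (∀ u ∈ x :: l, u = 1 ∨ u % 3 = 0) →
  Rr φ (finH (Zt m)) x l (fun _ => 0) = Rr φ (finM m) x l (fun _ => 0)

/-! ## B. Hamiltonian paths -/

/-- the arcs of the tournament obtained from the natural order by reversing the pairs in `F` -/
def arc (F : ℕ → ℕ → Bool) (x y : ℕ) : Prop :=
  (x < y ∧ F x y = false) ∨ (y < x ∧ F x y = true)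

/-- the signed indicator of `F` -/
def phi {A : Type} [CommRing A] (F : ℕ → ℕ → Bool) (x y : ℕ) : A :=
  if F x y = true then (if x < y then -1 else 1) else 0

open Classical in
/-- CHAIN -/
def S_CHAIN : Prop := ∀ (A : Type) [CommRing A] (F : ℕ → ℕ → Bool) (l : List ℕ) (x : ℕ)
  (κ : ℕ → ℕ), (x :: l).Nodup →
  Rr (phi F) (fun _ _ => (1 : A)) x l κ = if (x :: l).IsChain (arc F) then 1 else 0

/-- the graph positions are `1`, `3`, `6`, ..., `3 m + 3` -/
def Fok (m : ℕ) (F : ℕ → ℕ → Bool) : Prop := ∀ p q, F p q = true →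
  (p = 1 ∨ (p % 3 = 0 ∧ 0 < p ∧ p ≤ 3 * m + 3)) ∧ (q = 1 ∨ (q % 3 = 0 ∧ 0 < q ∧ q ≤ 3 * m + 3))

/-- HP: Hamiltonian paths modulo four. -/
def S_HP : Prop := ∀ (m : ℕ) (F : ℕ → ℕ → Bool), Fok m F →
  ((Nat.card {l : List ℕ // l.Perm (List.range' 1 (3 * m + 3)) ∧ l.IsChain (arc F)} : ℕ) :
    ZMod 4) = 1 + 2 * PP (phi F) 3 1 (Vd m)

/-- HS: Hamiltonian paths starting at the vertex `3`. -/
def S_HS : Prop := ∀ (m : ℕ) (F : ℕ → ℕ → Bool), Fok m F →
  ((Nat.card {l : List ℕ // l.Perm (List.range' 1 (3 * m + 3)) ∧ l.head? = some 3 ∧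
    l.IsChain (arc F)} : ℕ) : ZMod 4) = PP (phi F) 3 1 (Vd m)

/-- COUNT: signed sums of paths are numbers of paths modulo two. -/
def S_COUNT : Prop := ∀ (A : Type) [CommRing A] (F : ℕ → ℕ → Bool) (x e : ℕ) (V : List ℕ),
  V.Nodup → ∃ c : A, PP (phi F) x e V =
    ((Nat.card {l : List ℕ // l.Nodup ∧ (∀ v ∈ l, v ∈ V) ∧
      (x :: (l ++ [e])).IsChain (fun u v => F u v = true)} : ℕ) : A) + 2 * c

/-! ## C. Matrices -/

/-- entries of a list of rows -/
def en (A : List (List Bool)) (i j : ℕ) : Bool := (A.getD i []).getD j false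

/-- adjacency matrices of tournaments -/
def IsTour (A : List (List Bool)) : Prop :=
  (∀ r ∈ A, r.length = A.length) ∧
  ∀ i < A.length, en A i i = false ∧ ∀ j < A.length, i ≠ j → en A i j = !en A j i

/-- number of Hamiltonian paths -/
noncomputable def numHP (A : List (List Bool)) : ℕ :=
  Nat.card {l : List ℕ // l.Perm (List.range A.length) ∧ l.IsChain fun i j => en A i j = true}

/-- number of Hamiltonian paths starting at the vertex `v` -/
noncomputable def numHS (A : List (List Bool)) (v : ℕ) : ℕ :=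
  Nat.card {l : List ℕ // l.Perm (List.range A.length) ∧ l.head? = some v ∧
    l.IsChain fun i j => en A i j = true}

/-- number of Hamiltonian cycles: each is listed from the vertex `0` -/
noncomputable def numHC (A : List (List Bool)) : ℕ :=
  Nat.card {l : List ℕ // l.Perm (List.range A.length) ∧ l.head? = some 0 ∧
    (l ++ [0]).IsChain fun i j => en A i j = true}

/-- the word of positions: the target `e`, one spacer, the source `x`, and two spacers before each
of the other vertices -/
def wv {N : Type} (x e : N) (rest : List N) : List (Option N) :=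
  [some e, none, some x] ++ rest.flatMap fun v => [none, none, some v]

/-- adjacency extended to spacers -/
def adO {N : Type} (adj : N → N → Bool) : Option N → Option N → Bool
  | some u, some v => adj u v
  | _, _ => false

/-- the tournament: the order of the positions with the pairs of adjacent vertices reversed -/
def tm {N : Type} (adj : N → N → Bool) (W : List (Option N)) : List (List Bool) :=
  W.zipIdx.map fun p => W.zipIdx.map fun q =>
    if p.2 < q.2 then !adO adj p.1 q.1 else if q.2 < p.2 then adO adj p.1 q.1 else false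

/-- number of simple paths from `x` to `e` with all interior vertices in `rest` -/
noncomputable def nsp {N : Type} (adj : N → N → Bool) (x e : N) (rest : List N) : ℕ :=
  Nat.card {l : List N // l.Nodup ∧ (∀ v ∈ l, v ∈ rest) ∧
    (x :: (l ++ [e])).IsChain (fun u v => adj u v = true)}

/-- TOUR -/
def S_TOUR : Prop := ∀ (N : Type) (adj : N → N → Bool) (W : List (Option N)),
  (∀ u v, adj u v = adj v u) → IsTour (tm adj W)

/-- MAT: the tournament of a graph. -/
def S_MAT : Prop := ∀ (N : Type) [DecidableEq N] (adj : N → N → Bool) (x e : N) (rest : List N),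
  (∀ u v, adj u v = adj v u) → (x :: e :: rest).Nodup →
  numHP (tm adj (wv x e rest)) % 4 = (1 + 2 * nsp adj x e rest) % 4 ∧
  numHS (tm adj (wv x e rest)) 2 % 2 = nsp adj x e rest % 2

/-- one more vertex `w`, with the arcs `w → z` and `v → w` for all the others -/
def addW (A : List (List Bool)) (z : ℕ) : List (List Bool) :=
  (A.zipIdx.map fun p => p.1 ++ [!decide (p.2 = z)]) ++
    [((List.range A.length).map fun j => decide (j = z)) ++ [false]]

/-- two more vertices `z, w` with all arcs from `A` to `z`, the arc `z → w` and all arcs from `w`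
to `A` -/
def addZW (A : List (List Bool)) : List (List Bool) :=
  (A.map fun r => r ++ [true, false]) ++
    [((List.range A.length).map fun _ => false) ++ [false, true],
     ((List.range A.length).map fun _ => true) ++ [false, false]]

/-- ADDW -/
def S_ADDW : Prop := ∀ (A : List (List Bool)) (z : ℕ), IsTour A → 2 ≤ A.length → z < A.length →
  IsTour (addW A z) ∧ numHC (addW A z) = numHS A z

/-- ADDZW -/
def S_ADDZW : Prop := ∀ (A : List (List Bool)), IsTour A → 1 ≤ A.length →
  IsTour (addZW A) ∧ numHC (addZW A) = numHP A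

/-- REDEI (1934) -/
def S_REDEI : Prop := ∀ (A : List (List Bool)), IsTour A → numHP A % 2 = 1

/-! ## D. The graph of a list of stages -/

/-- labels of shared vertices -/
abbrev Lb := ℕ × ℕ × ℕ × Bool

/-- names of vertices: a kind and four numbers -/
abbrev Nm := ℕ × Lb

/-- hubs -/
def hub (k : ℕ) : Nm := (0, k, 0, 0, false)

/-- the vertices of the route `α` of the stage `k` -/
def rv (k : ℕ) (α : Bool) (i : ℕ) : Nm := (1, k, i, 0, α)

/-- first inner vertex of a gadget -/
def xv (k : ℕ) (α : Bool) (i : ℕ) : Nm := (2, k, i, 0, α)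

/-- second inner vertex of a gadget -/
def yv (k : ℕ) (α : Bool) (i : ℕ) : Nm := (3, k, i, 0, α)

/-- shared vertices -/
def sh (a : Lb) : Nm := (4, a)

/-- the edges of the gadget number `i` of a route -/
def gE (k : ℕ) (α : Bool) (i : ℕ) (a : Lb) : List (Nm × Nm) :=
  [(rv k α i, rv k α (i + 1)), (rv k α i, yv k α i), (yv k α i, xv k α i),
    (xv k α i, rv k α (i + 1)), (sh a, xv k α i), (sh a, yv k α i)]

/-- the edges of a route -/
def rE (k : ℕ) (α : Bool) (L : List Lb) : List (Nm × Nm) :=
  (hub k, rv k α 0) :: (L.zipIdx.flatMap fun p => gE k α p.2 p.1) ++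
    [(rv k α L.length, hub (k + 1))]

/-- a list of stages, each with its two routes (lists of labels) -/
abbrev Stg := List (List Lb × List Lb)

/-- all edges -/
def EE (S : Stg) : List (Nm × Nm) :=
  S.zipIdx.flatMap fun p => rE p.2 false p.1.1 ++ rE p.2 true p.1.2

/-- adjacency -/
def adS (S : Stg) (u v : Nm) : Bool := decide ((u, v) ∈ EE S) || decide ((v, u) ∈ EE S)

/-- all concatenations of one route for each stage -/
def choices : Stg → List (List Lb)
  | [] => [[]]
  | (P, Q) :: S => (choices S).map (fun c => P ++ c) ++ (choices S).map (fun c => Q ++ c)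

/-- the number of choices of routes without a repeated label -/
def nc (S : Stg) : ℕ := ((choices S).filter fun c => decide c.Nodup).length

/-- GRAPH -/
def S_GRAPH : Prop := ∀ (S : Stg) (rest : List Nm), S ≠ [] →
  (hub 0 :: hub S.length :: rest).Nodup →
  (∀ p ∈ EE S, p.1 ∈ hub 0 :: hub S.length :: rest ∧ p.2 ∈ hub 0 :: hub S.length :: rest) →
  nsp (adS S) (hub 0) (hub S.length) rest % 2 = nc S % 2

end Pool.Agent.W894.HT
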