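import Pool.Agent.W894.HT.Defs

/-!
# Project HT: exact counting (statements)
-/

namespace Pool.Agent.W894.HT

/-- rows `1, ..., n` and columns `n + M + 1, ..., 2 n + M` joined according to `G` -/
def Fb (n M : ℕ) (G : ℕ → ℕ → Bool) (p q : ℕ) : Bool :=
  (decide (1 ≤ p ∧ p ≤ n ∧ n + M < q ∧ q ≤ 2 * n + M) && G (p - 1) (q - n - M - 1)) ||
  (decide (1 ≤ q ∧ q ≤ n ∧ n + M < p ∧ p ≤ 2 * n + M) && G (q - 1) (p - n - M - 1))

/-- the last step, with `M` spacers between rows and columns -/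
def finX (n M : ℕ) (u : ℕ) (κ : ℕ → ℕ) : ℤ := ((κ (n + 1) + low u (n + 1) : ℕ) : ℤ) ^ M

/-- XHP: Hamiltonian paths as a word sum. -/
def S_XHP : Prop := ∀ (n M : ℕ) (G : ℕ → ℕ → Bool), 1 ≤ M →
  ((Nat.card {l : List ℕ // l.Perm (List.range' 1 (2 * n + M)) ∧
    l.IsChain (arc (Fb n M G))} : ℕ) : ℤ) =
  PS (phi (Fb n M G)) (finX n M) 0 (List.range' 1 n ++ List.range' (n + M + 1) n)

/-- alternating words: high, low, high, low, ..., with `G`-edges from high to low -/
def alt (n M : ℕ) (G : ℕ → ℕ → Bool) : ℕ → List ℕ → Bool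
  | x, [] => decide (x ≤ n)
  | x, v :: l => (if x ≤ n then decide (n + M < v) else Fb n M G x v) && alt n M G v l

/-- XBD: only alternating words have a term of the leading order. -/
def S_XBD : Prop := ∀ (n M : ℕ) (G : ℕ → ℕ → Bool) (l : List ℕ), 1 ≤ n → 1 ≤ M →
  l.Perm (List.range' 1 n ++ List.range' (n + M + 1) n) →
  |Rr (phi (Fb n M G)) (finX n M) 0 l (fun _ => 0) -
    (if alt n M G 0 l = true then ((n : ℤ) + 1) ^ M else 0)| ≤ ((4 ^ n * n ^ M : ℕ) : ℤ)

/-- XALT: the number of alternating words. -/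
def S_XALT : Prop := ∀ (n M : ℕ) (G : ℕ → ℕ → Bool), 1 ≤ n →
  ((List.range' 1 n ++ List.range' (n + M + 1) n).permutations'.filter fun l =>
    alt n M G 0 l).length =
  n.factorial * Nat.card {σ : Equiv.Perm (Fin n) // ∀ i, G i.val (σ i).val = true}

/-- XMAIN: the leading term is `n!` times the permanent. -/
def S_XMAIN : Prop := ∀ (n M : ℕ) (G : ℕ → ℕ → Bool), 1 ≤ n → 1 ≤ M →
  |PS (phi (Fb n M G)) (finX n M) 0 (List.range' 1 n ++ List.range' (n + M + 1) n) -
    ((n.factorial * Nat.card {σ : Equiv.Perm (Fin n) // ∀ i, G i.val (σ i).val = true} : ℕ) : ℤ) *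
      (n + 1) ^ M| ≤ (((2 * n).factorial * 4 ^ n * n ^ M : ℕ) : ℤ)

/-- the number of spacers -/
def MX (n : ℕ) : ℕ := n * (4 * n ^ 2 + 2 * n + 2)

/-- XNUM -/
def S_XNUM : Prop := ∀ n : ℕ, 1 ≤ n →
  2 * ((2 * n).factorial * 4 ^ n * n ^ MX n) < (n + 1) ^ MX n

/-- the tournament of a square matrix -/
def tmX (B : List (List Bool)) : List (List Bool) :=
  (List.range (2 * B.length + MX B.length)).map fun i =>
    (List.range (2 * B.length + MX B.length)).map fun j =>
      if i < j then !Fb B.length (MX B.length) (en B) (i + 1) (j + 1)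
      else if j < i then Fb B.length (MX B.length) (en B) (i + 1) (j + 1) else false

/-- XMAT -/
def S_XMAT : Prop := ∀ B : List (List Bool), IsTour (tmX B) ∧
  numHP (tmX B) = Nat.card {l : List ℕ //
    l.Perm (List.range' 1 (2 * B.length + MX B.length)) ∧
      l.IsChain (arc (Fb B.length (MX B.length) (en B)))}

end Pool.Agent.W894.HT
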