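import Pool.Agent.W894.HT.Imp

/-!
# Project HT: assembly of the combinatorial part
-/

namespace Pool.Agent.W894.HT

/-- the graph theorem -/
theorem gad : S_GAD := Pool.Agent.W381.HTGad.main Pool.Agent.W352.HTTog.main

/-- the graph theorem -/
theorem graph : S_GRAPH := by
  have hGAD := gad
  intro S rest hS hnd hE
  rw [Pool.Agent.W465.HTNsp.main S rest hS hnd hE, Pool.Agent.W505.HTClean.main hGAD S hS,
    Pool.Agent.W315.HTNC.mainNC S]
  congr 1
  refine (Nat.card_congr (Equiv.ofBijective (fun b : {bs : List Bool //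
      bs.length = S.length ∧ (lbs S bs).Nodup} =>
      (⟨pth 0 S b.1, Pool.Agent.W505.HTRun1.main S b.1 b.2.1 b.2.2⟩ :
        {l : List Nm // isP S l ∧ ∀ g ∈ gads S, cln g l})) ⟨?_, ?_⟩)).symm
  · rintro ⟨b, hb1, hb2⟩ ⟨c, hc1, hc2⟩ h
    apply Subtype.ext
    exact Pool.Agent.W315.HTNC.mainI S b c hb1 hc1 (congrArg Subtype.val h)
  · rintro ⟨l, h1, h2⟩
    obtain ⟨bs, h3, h4, h5⟩ := Pool.Agent.W494.HTRun2.main S l h1 h2
    exact ⟨⟨bs, h3, h4⟩, Subtype.ext h5.symm⟩

theorem space : S_SPACE := Pool.Agent.W469.HT.Space.main Pool.Agent.W469.HT.Ins.main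

theorem evalH : S_EVALH := Pool.Agent.W352.HTEval.mainH Pool.Agent.W305.HTTop.main
  Pool.Agent.W928.HTDfst.main Pool.Agent.W215.HTPstep.main

theorem evalB : S_EVALB := Pool.Agent.W352.HTEval.mainB Pool.Agent.W305.HTTop.main
  Pool.Agent.W928.HTDfst.main Pool.Agent.W215.HTPstep.main

theorem mat : S_MAT := Pool.Agent.W493.HTMat.main
  (Pool.Agent.W975.HTHp.mainP Pool.Agent.W639.HTChain.main space Pool.Agent.W131.HTMod4.main
    evalH evalB)
  (Pool.Agent.W975.HTHp.mainS Pool.Agent.W639.HTChain.main space Pool.Agent.W131.HTMod4.main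
    evalH evalB) Pool.Agent.W327.HTCount.main

theorem adS_comm (S : Stg) (u v : Nm) : adS S u v = adS S v u := by
  unfold adS
  rw [Bool.or_comm]

open Pool.Agent.NPC Pool.Agent.NPC.Cnt

/-- the tournament of a formula -/
def TF (φ : CNF ℕ) : List (List Bool) := TM (stg φ)

theorem length_TM (S : Stg) : 3 ≤ (TM S).length := by
  unfold TM tm wv
  simp

theorem isTour_TF (φ : CNF ℕ) : IsTour (TF φ) := Pool.Agent.W493.HTTour.main _ _ _ (adS_comm _)

theorem numHP_TF (φ : CNF ℕ) : numHP (TF φ) % 4 = (1 + 2 * satCount φ) % 4 := by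
  have hS : stg φ ≠ [] := by simp [stg]
  obtain ⟨h1, h2⟩ := Pool.Agent.W346.HTR.main (stg φ) hS
  have h3 := (mat Nm (adS (stg φ)) (hub 0) (hub (stg φ).length) (restS (stg φ)) (adS_comm _) h1).1
  have h4 := graph (stg φ) (restS (stg φ)) hS h1 h2
  have h5 := Pool.Agent.W52.HTCNF.main φ
  unfold TF TM
  omega

theorem numHS_TF (φ : CNF ℕ) : numHS (TF φ) 2 % 2 = satCount φ % 2 := by
  have hS : stg φ ≠ [] := by simp [stg]
  obtain ⟨h1, h2⟩ := Pool.Agent.W346.HTR.main (stg φ) hS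
  have h3 := (mat Nm (adS (stg φ)) (hub 0) (hub (stg φ).length) (restS (stg φ)) (adS_comm _) h1).2
  have h4 := graph (stg φ) (restS (stg φ)) hS h1 h2
  have h5 := Pool.Agent.W52.HTCNF.main φ
  unfold TF TM
  omega

end Pool.Agent.W894.HT
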