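import Pool.Agent.W894.HT.Fin1

/-!
# Project HT: complexity
-/

namespace Pool.Agent.W894.HT

open Pool.Agent.NPC Pool.Agent.NPC.Cnt
open Pool.Agent.NPC.H549NRed (NRed nred_sat hard_of_nred sharpP_le_of_nred)

/-- The class `Mod_k P`: languages `{x | f x is not divisible by k}` with `f` in `#P`
(`k = 2`: parity-P). -/
def InModP (k : ℕ) (L : Set (List Bool)) : Prop :=
  ∃ f : List Bool → ℕ, SharpP f ∧ ∀ x, x ∈ L ↔ f x % k ≠ 0

/-- completeness for `Mod_k P` under polynomial-time many-one reductions -/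
def ModPComplete (k : ℕ) (L : Set (List Bool)) : Prop :=
  InModP k L ∧ ∀ L', InModP k L' → Reduces L' L

/-- hardness from a polynomial-time function on formulas -/
theorem hard_of_cnf {β : Type} [TEnc β] (k : ℕ) (P : β → Prop) (T : CNF ℕ → β) (hT : Poly T)
    (h : ∀ φ, satCount φ % k ≠ 0 ↔ P (T φ)) (L' : Set (List Bool)) (hL : InModP k L') :
    Reduces L' (lang P) := by
  obtain ⟨f, ⟨V, p, hV, hf⟩, hL⟩ := hL
  obtain ⟨g, hg, hgf⟩ := parsimonious hV p
  refine ⟨fun x => bits (T (g x)), PC.toPolyTime_bits hT g hg, fun x => ?_⟩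
  have h1 : bits (T (g x)) ∈ lang P ↔ P (T (g x)) := by
    constructor
    · rintro ⟨a, ha, hPa⟩
      rw [bits_injective ha] at hPa
      exact hPa
    · intro h2
      exact ⟨_, rfl, h2⟩
  show x ∈ L' ↔ bits (T (g x)) ∈ lang P
  rw [hL x, h1, ← h, hf x, ← hgf x]

/-- membership from a counting function on structured data -/
theorem mem_of_count {β : Type} [TEnc β] (k : ℕ) (P : β → Prop) (f : β → ℕ)
    (hf : SharpP (strFn f)) (h : ∀ b, P b ↔ f b % k ≠ 0) : InModP k (lang P) := by
  refine ⟨strFn f, hf, fun x => ?_⟩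
  constructor
  · rintro ⟨b, rfl, hb⟩
    rw [strFn_bits]
    exact (h b).1 hb
  · intro hx
    by_cases hb : ∃ b : β, bits b = x
    · obtain ⟨b, rfl⟩ := hb
      rw [strFn_bits] at hx
      exact ⟨b, rfl, (h b).2 hx⟩
    · rw [strFn_of_not _ hb] at hx
      simp at hx

theorem choose_three_odd (n : ℕ) : n.choose 3 % 2 ≠ 0 ↔ n % 4 = 3 := by
  have key : ∀ n : ℕ, (n + 4).choose 3 = n.choose 3 + 4 * n.choose 2 + 6 * n + 4 := by
    intro n
    have h1 : (n + 4).choose 3 = n.choose 3 + 4 * n.choose 2 + 6 * n.choose 1 + 4 * n.choose 0 := by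
      simp only [Nat.choose_succ_succ', Nat.choose_zero_right]
      ring
    simpa using h1
  induction n using Nat.strong_induction_on with
  | _ n ih =>
    rcases Nat.lt_or_ge n 4 with h | h
    · interval_cases n <;> decide
    · obtain ⟨m, rfl⟩ := Nat.exists_eq_add_of_le' h
      have h1 := ih m (by omega)
      have h2 := key m
      omega

theorem tf_poly : Poly TF := Pool.Agent.W131.HTPtm.main.comp Pool.Agent.W349.HTPstg.main

theorem hpT_eq {A : List (List Bool)} (h : IsTour A) : hpT A = numHP A := if_pos h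

theorem hcT_eq {A : List (List Bool)} (h : IsTour A) : hcT A = numHC A := if_pos h

/-- `h(T) mod 4` is complete for parity-P. -/
theorem mod_four : ModPComplete 2 (lang fun A : List (List Bool) => IsTour A ∧ numHP A % 4 = 3) := by
  constructor
  · refine ⟨fun x => (strFn hpT x).choose 3, Pool.Agent.NPC.W352HTCh3.main _
      Pool.Agent.W490.HTMem.main.1, fun x => ?_⟩
    simp only
    rw [choose_three_odd]
    constructor
    · rintro ⟨A, rfl, hA, h⟩
      rw [strFn_bits, hpT_eq hA, h]
    · intro hx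
      by_cases hb : ∃ A : List (List Bool), bits A = x
      · obtain ⟨A, rfl⟩ := hb
        rw [strFn_bits] at hx
        by_cases hA : IsTour A
        · exact ⟨A, rfl, hA, by rwa [hpT_eq hA] at hx⟩
        · rw [hpT, if_neg hA] at hx
          simp at hx
      · rw [strFn_of_not _ hb] at hx
        simp at hx
  · refine hard_of_cnf 2 _ TF tf_poly fun φ => ?_
    have h1 := numHP_TF φ
    have h2 := isTour_TF φ
    constructor
    · intro h
      exact ⟨h2, by omega⟩
    · rintro ⟨_, h⟩
      omega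

/-- The parity of the number of Hamiltonian paths from a given vertex. -/
theorem start_two : ModPComplete 2 (lang fun x : List (List Bool) × ℕ =>
    IsTour x.1 ∧ x.2 < x.1.length ∧ numHS x.1 x.2 % 2 ≠ 0) := by
  constructor
  · refine mem_of_count 2 _ hsT Pool.Agent.W490.HTMem.main.2.1 fun x => ?_
    unfold hsT
    split_ifs with h
    · exact ⟨fun h' => h'.2.2, fun h' => ⟨h.1, h.2, h'⟩⟩
    · exact ⟨fun h' => absurd ⟨h'.1, h'.2.1⟩ h, fun h' => absurd rfl h'⟩
  · refine hard_of_cnf 2 _ (fun φ => (TF φ, 2)) (Poly.pair tf_poly (Pool.Agent.NPC.Poly.const 2)) fun φ => ?_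
    have h1 := numHS_TF φ
    have h3 : 3 ≤ (TF φ).length := length_TM _
    constructor
    · intro h
      exact ⟨isTour_TF φ, h3, by simp only; omega⟩
    · rintro ⟨_, _, h⟩
      simp only at h
      omega

/-- The parity of the number of Hamiltonian cycles. -/
theorem cycles_two : ModPComplete 2 (lang fun A : List (List Bool) =>
    IsTour A ∧ numHC A % 2 ≠ 0) := by
  constructor
  · refine mem_of_count 2 _ hcT Pool.Agent.W490.HTMem.main.2.2 fun A => ?_
    unfold hcT
    split_ifs with h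
    · exact ⟨fun h' => h'.2, fun h' => ⟨h, h'⟩⟩
    · exact ⟨fun h' => absurd h'.1 h, fun h' => absurd rfl h'⟩
  · refine hard_of_cnf 2 _ (fun φ => addW (TF φ) 2) (Pool.Agent.W349.HTPadd.main.1.comp
      (Poly.pair tf_poly (Pool.Agent.NPC.Poly.const 2))) fun φ => ?_
    have h1 := numHS_TF φ
    have h3 : 3 ≤ (TF φ).length := length_TM _
    obtain ⟨h4, h5⟩ := Pool.Agent.W930.HTAddw.main (TF φ) 2 (isTour_TF φ) (by omega) (by omega)
    rw [h5]
    constructor
    · intro h
      exact ⟨h4, by omega⟩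
    · rintro ⟨_, h⟩
      omega

theorem nred_hp : NRed (fun _ : CNF ℕ => True) (fun φ => satCount φ) IsTour numHP :=
  nred_sat.comp (Pool.Agent.NPC.W583HTXred.main
    (Pool.Agent.W352.HTXMain.main Pool.Agent.W64.HTXbd.main Pool.Agent.W922.HTXalt.main)
    (Pool.Agent.W249.HTXhp.main Pool.Agent.W639.HTChain.main space)
    Pool.Agent.W131.HTXnum.main Pool.Agent.W397.HTX.main)

theorem nred_hc : NRed (fun _ : CNF ℕ => True) (fun φ => satCount φ) IsTour numHC :=
  nred_hp.comp (Pool.Agent.W253.HTZred.main Pool.Agent.W493.HTAddZW.main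
    Pool.Agent.W349.HTPadd.main)

/-- Counting Hamiltonian paths is `#P`-complete. -/
theorem hp_complete : SharpP (strFn hpT) ∧ SharpPHard (strFn hpT) := by
  obtain ⟨r, hr⟩ := Pool.Agent.W991.HT.main
  exact ⟨Pool.Agent.W490.HTMem.main.1, hard_of_nred nred_hp (fun b hb => hpT_eq hb) r
    fun b => (hr b).1⟩

/-- Counting Hamiltonian cycles is `#P`-complete. -/
theorem hc_complete : SharpP (strFn hcT) ∧ SharpPHard (strFn hcT) := by
  obtain ⟨r, hr⟩ := Pool.Agent.W991.HT.main
  exact ⟨Pool.Agent.W490.HTMem.main.2.2, hard_of_nred nred_hc (fun b hb => hcT_eq hb) r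
    fun b => (hr b).2⟩

theorem fp_iff {f g : List (List Bool) → ℕ} (hred : NRed (fun _ : CNF ℕ => True)
    (fun φ => satCount φ) IsTour f) (hg : SharpP (strFn g)) (hfg : ∀ A, IsTour A → g A = f A) :
    (∀ k : List Bool → ℕ, SharpP k → FP k) ↔
      ∃ F : List Bool → List Bool, PolyTime F ∧ ∀ A : List (List Bool), IsTour A →
        F (bits A) = (f A).bits := by
  constructor
  · intro h
    refine ⟨_, h _ hg, fun A hA => ?_⟩
    show (strFn g (bits A)).bits = _
    rw [strFn_bits, hfg A hA]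
  · rintro ⟨F, hF, h⟩ k hk
    exact sharpP_le_of_nred hred ⟨F, hF, h⟩ k hk

end Pool.Agent.W894.HT
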