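import Pool.Agent.W894.HT.MLib

/-!
# Project HT, second part: completeness and classification of the moduli
-/

namespace Pool.Agent.W894.HT

open Pool.Agent.NPC Pool.Agent.NPC.Cnt

/-- the tournament of a formula for the odd prime `p` -/
def TQ (p : ℕ) (φ : CNF ℕ) : List (List Bool) := TMp p (stg φ) (tau φ)

theorem length_TQ (p : ℕ) (φ : CNF ℕ) : 2 < (TQ p φ).length := by
  unfold TQ TMp TMg
  rw [List.length_map, List.length_range]
  omega

theorem stg_ne (φ : CNF ℕ) : stg φ ≠ [] := by simp [stg]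

theorem mod_eq_one {p : ℕ} [Fact p.Prime] (n : ℕ) : n % p = 1 ↔ (n : ZMod p) = 1 := by
  have h : 1 % p = 1 := Nat.mod_eq_of_lt (Fact.out : p.Prime).one_lt
  have h2 := ZMod.natCast_eq_natCast_iff' n 1 p
  rw [h] at h2
  rw [← h2, Nat.cast_one]

theorem mod_eq_zero {p : ℕ} (n : ℕ) : n % p = 0 ↔ (n : ZMod p) = 0 := by
  rw [ZMod.natCast_eq_zero_iff, Nat.dvd_iff_mod_eq_zero]

theorem TQ_spec (hmpt : S_MPT) (hscnf : S_SCNF) (p : ℕ) (hp : p.Prime) (h2 : p ≠ 2)
    (φ : CNF ℕ) : IsTour (TQ p φ) ∧ (satCount φ % p ≠ 0 ↔ numHP (TQ p φ) % p ≠ 1) ∧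
    (satCount φ % p ≠ 0 ↔ numHS (TQ p φ) 2 % p ≠ 0) := by
  have : Fact p.Prime := ⟨hp⟩
  obtain ⟨h3, r, hr, h4, h5⟩ := hmpt p h2 (stg φ) (tau φ) (stg_ne φ)
  rw [hscnf φ, Int.cast_natCast] at h4 h5
  have h6 : (2 : ZMod p) ≠ 0 := by
    intro h
    have h7 : ((2 : ℕ) : ZMod p) = 0 := by exact_mod_cast h
    rw [ZMod.natCast_eq_zero_iff] at h7
    exact h2 ((Nat.prime_dvd_prime_iff_eq hp Nat.prime_two).1 h7)
  refine ⟨h3, ?_, ?_⟩
  · rw [Ne, Ne, not_iff_not, mod_eq_zero, mod_eq_one]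
    show (satCount φ : ZMod p) = 0 ↔ (numHP (TMp p (stg φ) (tau φ)) : ZMod p) = 1
    rw [h4]
    constructor
    · intro h
      rw [h]
      ring
    · intro h
      have h8 : 2 * (r * (satCount φ : ZMod p)) = 0 := by linear_combination h
      rcases mul_eq_zero.1 h8 with h9 | h9
      · exact absurd h9 h6
      · exact (mul_eq_zero.1 h9).resolve_left hr
  · rw [Ne, Ne, not_iff_not, mod_eq_zero, mod_eq_zero]
    show (satCount φ : ZMod p) = 0 ↔ (numHS (TMp p (stg φ) (tau φ)) 2 : ZMod p) = 0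
    rw [h5]
    constructor
    · intro h
      rw [h, mul_zero]
    · intro h
      exact (mul_eq_zero.1 h).resolve_left hr

/-- For odd primes `p` it is complete for `Mod_p P` to tell whether the number of Hamiltonian
paths is not `1` modulo `p`. -/
theorem hp_modp (hmpt : S_MPT) (hscnf : S_SCNF) (hptm : S_PTMP) (hmem : S_MEMP) (p : ℕ)
    (hp : p.Prime) (h2 : p ≠ 2) :
    ModPComplete p (lang fun A : List (List Bool) => IsTour A ∧ numHP A % p ≠ 1) := by
  classical
  have : Fact p.Prime := ⟨hp⟩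
  constructor
  · refine mem_of_count p _ _ (hmem (p - 1)) fun A => ?_
    by_cases hA : IsTour A
    · rw [if_pos hA]
      refine (and_iff_right hA).trans ?_
      rw [Ne, Ne, not_iff_not, mod_eq_zero, mod_eq_one, Nat.cast_add,
        Nat.cast_sub hp.one_lt.le, ZMod.natCast_self, Nat.cast_one]
      constructor
      · intro h
        rw [h]
        ring
      · intro h
        linear_combination h
    · rw [if_neg hA]
      exact ⟨fun h => absurd h.1 hA, fun h => absurd (Nat.zero_mod p) h⟩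
  · refine hard_of_cnf p _ (TQ p) (hptm p) fun φ => ?_
    obtain ⟨h3, h4, _⟩ := TQ_spec hmpt hscnf p hp h2 φ
    rw [h4]
    exact (and_iff_right h3).symm

/-- Hamiltonian paths from a given vertex, odd primes -/
theorem hs_modp (hmpt : S_MPT) (hscnf : S_SCNF) (hptm : S_PTMP) (p : ℕ)
    (hp : p.Prime) (h2 : p ≠ 2) :
    ModPComplete p (lang fun x : List (List Bool) × ℕ =>
      IsTour x.1 ∧ x.2 < x.1.length ∧ numHS x.1 x.2 % p ≠ 0) := by
  constructor
  · refine mem_of_count p _ hsT Pool.Agent.W490.HTMem.main.2.1 fun x => ?_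
    unfold hsT
    split_ifs with h
    · exact ⟨fun h' => h'.2.2, fun h' => ⟨h.1, h.2, h'⟩⟩
    · exact ⟨fun h' => absurd ⟨h'.1, h'.2.1⟩ h, fun h' => absurd (Nat.zero_mod p) h'⟩
  · refine hard_of_cnf p _ (fun φ => (TQ p φ, 2))
      (Poly.pair (hptm p) (Pool.Agent.NPC.Poly.const 2)) fun φ => ?_
    obtain ⟨h3, _, h4⟩ := TQ_spec hmpt hscnf p hp h2 φ
    rw [h4]
    exact ⟨fun h => ⟨h3, length_TQ p φ, h⟩, fun h => h.2.2⟩

/-- the tournament for cycles -/
def TC (p : ℕ) (φ : CNF ℕ) : List (List Bool) := if p = 2 then addW (TF φ) 2 else addW (TQ p φ) 2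

theorem TC_poly (hptm : S_PTMP) (p : ℕ) : Poly (TC p) := by
  by_cases h : p = 2
  · subst h
    exact (Pool.Agent.W349.HTPadd.main.1.comp
      (Poly.pair tf_poly (Pool.Agent.NPC.Poly.const 2))).congr fun φ => (if_pos rfl).symm
  · exact (Pool.Agent.W349.HTPadd.main.1.comp
      (Poly.pair (hptm p) (Pool.Agent.NPC.Poly.const 2))).congr fun φ => (if_neg h).symm

theorem TC_spec (hmpt : S_MPT) (hscnf : S_SCNF) (p : ℕ) (hp : p.Prime) (φ : CNF ℕ) :
    IsTour (TC p φ) ∧ (satCount φ % p ≠ 0 ↔ numHC (TC p φ) % p ≠ 0) := by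
  unfold TC
  split_ifs with h
  · subst h
    have h3 : 3 ≤ (TF φ).length := length_TM _
    obtain ⟨h4, h5⟩ := Pool.Agent.W930.HTAddw.main (TF φ) 2 (isTour_TF φ) (by omega) (by omega)
    have h1 := numHS_TF φ
    rw [h5, h1]
    exact ⟨h4, Iff.rfl⟩
  · have h3 := length_TQ p φ
    obtain ⟨h1, _, h6⟩ := TQ_spec hmpt hscnf p hp h φ
    obtain ⟨h4, h5⟩ := Pool.Agent.W930.HTAddw.main (TQ p φ) 2 h1 (by omega) (by omega)
    rw [h5]
    exact ⟨h4, h6⟩

/-- Hamiltonian cycles, all primes -/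
theorem hc_modp (hmpt : S_MPT) (hscnf : S_SCNF) (hptm : S_PTMP) (p : ℕ) (hp : p.Prime) :
    ModPComplete p (lang fun A : List (List Bool) => IsTour A ∧ numHC A % p ≠ 0) := by
  constructor
  · refine mem_of_count p _ hcT Pool.Agent.W490.HTMem.main.2.2 fun A => ?_
    unfold hcT
    split_ifs with h
    · exact ⟨fun h' => h'.2, fun h' => ⟨h, h'⟩⟩
    · exact ⟨fun h' => absurd h'.1 h, fun h' => absurd (Nat.zero_mod p) h'⟩
  · refine hard_of_cnf p _ (TC p) (TC_poly hptm p) fun φ => ?_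
    obtain ⟨h3, h4⟩ := TC_spec hmpt hscnf p hp φ
    rw [h4]
    exact (and_iff_right h3).symm

/-- all primes for paths from a given vertex -/
theorem hs_all (hmpt : S_MPT) (hscnf : S_SCNF) (hptm : S_PTMP) (p : ℕ) (hp : p.Prime) :
    ModPComplete p (lang fun x : List (List Bool) × ℕ =>
      IsTour x.1 ∧ x.2 < x.1.length ∧ numHS x.1 x.2 % p ≠ 0) := by
  by_cases h : p = 2
  · subst h
    exact start_two
  · exact hs_modp hmpt hscnf hptm p hp h

/-- Classification of the moduli for Hamiltonian paths. -/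
theorem hp_classify (hmpt : S_MPT) (hscnf : S_SCNF) (hptm : S_PTMP) (hmod : S_MODM)
    (hodd : S_ODD) (hfwd : S_FWD) (m : ℕ) (hm : 0 < m) :
    (∃ F : List Bool → List Bool, PolyTime F ∧ ∀ A : List (List Bool), IsTour A →
      F (bits A) = (numHP A % m).bits) ↔
    ∀ p : ℕ, p.Prime → p ∣ m → (p = 2 → 4 ∣ m) → ∀ L, InModP p L → InP L := by
  constructor
  · intro h p hp hpm h4 L hL
    by_cases h2 : p = 2
    · subst h2
      refine hfwd _ numHP IsTour TF 2 4 m 1 tf_poly isTour_TF hm (h4 rfl) (fun φ => ?_) h L hL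
      have h5 := numHP_TF φ
      omega
    · exact hfwd _ numHP IsTour (TQ p) p p m 1 (hptm p)
        (fun φ => (TQ_spec hmpt hscnf p hp h2 φ).1) hm hpm
        (fun φ => (TQ_spec hmpt hscnf p hp h2 φ).2.1) h L hL
  · intro h
    have hs : SharpP (strFn hpT) := hp_complete.1
    by_cases h4 : 4 ∣ m
    · refine ⟨_, hmod _ hs m hm (fun p hp hpm => h p hp hpm fun _ => h4), fun A hA => ?_⟩
      show (strFn hpT (bits A) % m).bits = _
      rw [strFn_bits, hpT_eq hA]
    · by_cases h2 : 2 ∣ m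
      · obtain ⟨n, rfl⟩ := h2
        have hn : n % 2 = 1 := by omega
        have h5 : FP (fun x => strFn hpT x % n) := hmod _ hs n (by omega) fun p hp hpn =>
          h p hp (hpn.mul_left 2) fun h2 => by
            subst h2
            omega
        obtain ⟨g, hg, hg2⟩ := hodd _ n hn h5
        refine ⟨_, hg, fun A hA => ?_⟩
        show (g (bits A)).bits = _
        have h6 : strFn hpT (bits A) = numHP A := by rw [strFn_bits, hpT_eq hA]
        rw [hg2 (bits A) (by rw [h6]; exact Pool.Agent.W493.HTRedei.main A hA), h6]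
      · refine ⟨_, hmod _ hs m hm (fun p hp hpm => h p hp hpm fun h3 => ?_), fun A hA => ?_⟩
        · subst h3
          exact absurd hpm h2
        · show (strFn hpT (bits A) % m).bits = _
          rw [strFn_bits, hpT_eq hA]

/-- Classification of the moduli for Hamiltonian cycles. -/
theorem hc_classify (hmpt : S_MPT) (hscnf : S_SCNF) (hptm : S_PTMP) (hmod : S_MODM)
    (hfwd : S_FWD) (m : ℕ) (hm : 0 < m) :
    (∃ F : List Bool → List Bool, PolyTime F ∧ ∀ A : List (List Bool), IsTour A →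
      F (bits A) = (numHC A % m).bits) ↔
    ∀ p : ℕ, p.Prime → p ∣ m → ∀ L, InModP p L → InP L := by
  constructor
  · intro h p hp hpm L hL
    exact hfwd _ numHC IsTour (TC p) p p m 0 (TC_poly hptm p)
      (fun φ => (TC_spec hmpt hscnf p hp φ).1) hm hpm
      (fun φ => (TC_spec hmpt hscnf p hp φ).2) h L hL
  · intro h
    have hs : SharpP (strFn hcT) := hc_complete.1
    refine ⟨_, hmod _ hs m hm (fun p hp hpm => h p hp hpm), fun A hA => ?_⟩
    show (strFn hcT (bits A) % m).bits = _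
    rw [strFn_bits, hcT_eq hA]

end Pool.Agent.W894.HT
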