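import Pool.Agent.H527R2.SharpP
import Pool.Agent.H579R2.Spt.Defs

/-!
# Hamiltonian paths and cycles of tournaments: the definitions of the final statement
-/

namespace Pool.Agent.W894.HamTour

open Pool.Agent.NPC Pool.Agent.NPC.Cnt

/-- The entry `i, j` of a list of rows. -/
def entry (A : List (List Bool)) (i j : ℕ) : Bool := (A.getD i []).getD j false

/-- `A` is the adjacency matrix of a tournament: square, zero diagonal, and for `i ≠ j` exactly one
of the entries `i, j` and `j, i` is `true`. -/
def IsTournament (A : List (List Bool)) : Prop :=
  (∀ r ∈ A, r.length = A.length) ∧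
  ∀ i < A.length, entry A i i = false ∧ ∀ j < A.length, i ≠ j → entry A i j = !entry A j i

/-- The number of Hamiltonian paths: orders of all vertices with an arc from each vertex to the
next one. -/
noncomputable def hamPaths (A : List (List Bool)) : ℕ :=
  Nat.card {l : List ℕ // l.Perm (List.range A.length) ∧ l.IsChain fun i j => entry A i j = true}

/-- The number of Hamiltonian cycles: each cycle is listed from the vertex `0`. -/
noncomputable def hamCycles (A : List (List Bool)) : ℕ :=
  Nat.card {l : List ℕ // l.Perm (List.range A.length) ∧ l.head? = some 0 ∧
    (l ++ [0]).IsChain fun i j => entry A i j = true}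

open Classical in
/-- A function of matrices, changed to `0` on matrices that are not tournaments. -/
noncomputable def onTournaments (f : List (List Bool) → ℕ) (A : List (List Bool)) : ℕ :=
  if IsTournament A then f A else 0

/-- The values of `f` on tournaments can be computed in polynomial time, in binary. -/
def Easy (f : List (List Bool) → ℕ) : Prop :=
  ∃ F : List Bool → List Bool, PolyTime F ∧ ∀ A : List (List Bool), IsTournament A →
    F (bits A) = (f A).bits

/-- Languages decidable in polynomial time. -/
def InP (L : Set (List Bool)) : Prop :=
  ∃ F : List Bool → List Bool, PolyTime F ∧ ∀ x, x ∈ L ↔ F x = [true]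

/-- The class `Mod_k P` of the languages `{x | f x is not divisible by k}` with `f` in `#P`;
`k = 2` gives parity-P. -/
def InMod (k : ℕ) (L : Set (List Bool)) : Prop :=
  ∃ f : List Bool → ℕ, SharpP f ∧ ∀ x, x ∈ L ↔ f x % k ≠ 0

/-- Completeness for `Mod_k P` under polynomial-time many-one reductions. -/
def ModComplete (k : ℕ) (L : Set (List Bool)) : Prop :=
  InMod k L ∧ ∀ L', InMod k L' → Reduces L' L

/-- `#P`-completeness: membership, and hardness under polynomial-time Turing reductions. -/
def SharpPComplete (f : List Bool → ℕ) : Prop := SharpP f ∧ SharpPHard f

end Pool.Agent.W894.HamTour
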