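import Pool.Agent.W894.HT.NImp
import Pool.Agent.W894.HT.Stm

/-!
# Project HT: the final theorem
-/

namespace Pool.Agent.W894.HT

open Pool.Agent.NPC Pool.Agent.NPC.Cnt
open Pool.Agent.W894.HamTour (IsTournament hamPaths hamCycles onTournaments Easy InMod ModComplete
  SharpPComplete)
open Pool.Agent.H579R2.Spt (InRP)

theorem onT_hp : onTournaments hamPaths = hpT := rfl

theorem onT_hc : onTournaments hamCycles = hcT := rfl

/-- the dichotomy -/
theorem big_mod (m : ℕ) (hm : 3 ≤ m) : ∃ p : ℕ, p.Prime ∧ p ∣ m ∧ (p = 2 → 4 ∣ m) := by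
  by_contra hcon
  push Not at hcon
  have h2 : ∀ p : ℕ, p.Prime → p ∣ m → p = 2 := fun p hp hpm => (hcon p hp hpm).1
  have h3 := Nat.eq_prime_pow_of_unique_prime_dvd (n := m) (p := 2) (by omega)
    (fun {d} hd hdm => h2 d hd hdm)
  obtain ⟨h4, h5⟩ := hcon 2 Nat.prime_two (by
    by_contra hnd
    obtain ⟨q, hq, hqm⟩ := Nat.exists_prime_and_dvd (n := m) (by omega)
    have := h2 q hq hqm
    subst this
    exact hnd hqm)
  rcases Nat.lt_or_ge (m.primeFactorsList.length) 2 with h6 | h6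
  · interval_cases h7 : m.primeFactorsList.length
    · omega
    · omega
  · apply h5
    rw [h3]
    exact ⟨2 ^ (m.primeFactorsList.length - 2), by
      rw [show (4 : ℕ) = 2 ^ 2 by norm_num, ← pow_add]
      congr 1
      omega⟩

theorem final (hluc : S_LUCAS) (hfwd : S_FWD)
    (hrp : ∀ p : ℕ, 2 ≤ p → (∀ L, InModP p L → InP L) → ∀ L, InNP L → InRP L) :
    (SharpPComplete (strFn (onTournaments hamPaths)) ∧
      SharpPComplete (strFn (onTournaments hamCycles)) ∧
      ((∀ k : List Bool → ℕ, SharpP k → FP k) ↔ Easy hamPaths) ∧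
      ((∀ k : List Bool → ℕ, SharpP k → FP k) ↔ Easy hamCycles)) ∧
    (∀ m : ℕ, 0 < m → (Easy (fun A => hamPaths A % m) ↔
      ∀ p : ℕ, p.Prime → p ∣ m → (p = 2 → 4 ∣ m) → ∀ L, InMod p L → HamTour.InP L)) ∧
    (∀ m : ℕ, 0 < m → (Easy (fun A => hamCycles A % m) ↔
      ∀ p : ℕ, p.Prime → p ∣ m → ∀ L, InMod p L → HamTour.InP L)) ∧
    ModComplete 2 (lang fun A : List (List Bool) => IsTournament A ∧ hamPaths A % 4 = 3) ∧
    (∀ p : ℕ, p.Prime → p ≠ 2 →
      ModComplete p (lang fun A : List (List Bool) => IsTournament A ∧ hamPaths A % p ≠ 1)) ∧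
    (∀ p : ℕ, p.Prime →
      ModComplete p (lang fun A : List (List Bool) => IsTournament A ∧ hamCycles A % p ≠ 0)) ∧
    (∀ m : ℕ, 3 ≤ m → Easy (fun A => hamPaths A % m) → ∀ L, InNP L → InRP L) ∧
    (∀ m : ℕ, 2 ≤ m → Easy (fun A => hamCycles A % m) → ∀ L, InNP L → InRP L) := by
  have hmod : S_MODM := Pool.Agent.W19.HNModm.main ndig hluc ncrt
  have h1 := hp_classify nmpt nscnf nptmp hmod nodd hfwd
  have h2 := hc_classify nmpt nscnf nptmp hmod hfwd
  refine ⟨⟨hp_complete, hc_complete,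
    fp_iff nred_hp hp_complete.1 (fun _ hA => hpT_eq hA),
    fp_iff nred_hc hc_complete.1 (fun _ hA => hcT_eq hA)⟩, h1, h2, mod_four,
    hp_modp nmpt nscnf nptmp nmemp, hc_modp nmpt nscnf nptmp, ?_, ?_⟩
  · intro m hm he
    obtain ⟨p, hp, hpm, h4⟩ := big_mod m hm
    exact hrp p hp.two_le ((h1 m (by omega)).1 he p hp hpm h4)
  · intro m hm he
    obtain ⟨p, hp, hpm⟩ := Nat.exists_prime_and_dvd (n := m) (by omega)
    exact hrp p hp.two_le ((h2 m (by omega)).1 he p hp hpm)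

end Pool.Agent.W894.HT
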