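import Pool.Agent.W894.HT.Fin4
import Pool.Agent.W327.HNLucas
import Pool.Agent.W445.HNFwd
import Pool.Agent.W215.HNRp

/-!
# Project HT: the final theorem without hypotheses
-/

namespace Pool.Agent.W894.HT

/-- lucas -/
theorem nlucas : S_LUCAS := Pool.Agent.W327.HNLucas.main nchk

/-- fwd -/
theorem nfwd : S_FWD := Pool.Agent.W445.HNFwd.main

end Pool.Agent.W894.HT
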