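import Pool.Agent.W894.HT.Defs

/-!
# Project HT: the graph of a list of stages (statements)
-/

namespace Pool.Agent.W894.HT

open Classical in
/-- TOG: toggling a block `w` between two consecutive elements `u, v` (in either direction). -/
def S_TOG : Prop := ∀ (N : Type) (Q : Finset (List N)) (u v : N) (w : List N), w ≠ [] → u ≠ v →
  (∀ l ∈ Q, l.Nodup) →
  (∀ A B : List N, (A ++ u :: v :: B ∈ Q ∧ ∀ z ∈ w, z ∉ A ++ u :: v :: B) ↔
    A ++ u :: (w ++ v :: B) ∈ Q) →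
  (∀ A B : List N, (A ++ v :: u :: B ∈ Q ∧ ∀ z ∈ w, z ∉ A ++ v :: u :: B) ↔
    A ++ v :: (w.reverse ++ u :: B) ∈ Q) →
  Q.card % 2 = (Q.filter fun l =>
    ¬ (([u, v] <:+: l ∨ [v, u] <:+: l) ∧ ∀ z ∈ w, z ∉ l) ∧
    ¬ (u :: (w ++ [v]) <:+: l ∨ v :: (w.reverse ++ [u]) <:+: l)).card % 2

/-- the gadget `p, q, a; x, y` is not used, or it is passed straight through `a` -/
def CL {N : Type} (p q a x y : N) (l : List N) : Prop :=
  (x ∉ l ∧ y ∉ l ∧ ¬ [p, q] <:+: l ∧ ¬ [q, p] <:+: l) ∨ [p, y, a, x, q] <:+: l ∨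
    [q, x, a, y, p] <:+: l

open Classical in
/-- GAD: one gadget. -/
def S_GAD : Prop := ∀ (N : Type) (Q : Finset (List N)) (p q a x y : N), [p, q, a, x, y].Nodup →
  (∀ l ∈ Q, l.Nodup) →
  (∀ l ∈ Q, l.head? ≠ some x ∧ l.head? ≠ some y ∧ l.getLast? ≠ some x ∧ l.getLast? ≠ some y) →
  (∀ l ∈ Q, ∀ b, ([b, x] <:+: l ∨ [x, b] <:+: l) → b = y ∨ b = q ∨ b = a) →
  (∀ l ∈ Q, ∀ b, ([b, y] <:+: l ∨ [y, b] <:+: l) → b = x ∨ b = p ∨ b = a) →
  (∀ A B : List N, (A ++ y :: a :: B ∈ Q ∧ x ∉ A ++ y :: a :: B) ↔ A ++ y :: x :: a :: B ∈ Q) →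
  (∀ A B : List N, (A ++ a :: y :: B ∈ Q ∧ x ∉ A ++ a :: y :: B) ↔ A ++ a :: x :: y :: B ∈ Q) →
  (∀ A B : List N, (A ++ x :: a :: B ∈ Q ∧ y ∉ A ++ x :: a :: B) ↔ A ++ x :: y :: a :: B ∈ Q) →
  (∀ A B : List N, (A ++ a :: x :: B ∈ Q ∧ y ∉ A ++ a :: x :: B) ↔ A ++ a :: y :: x :: B ∈ Q) →
  (∀ A B : List N, (A ++ p :: q :: B ∈ Q ∧ x ∉ A ++ p :: q :: B ∧ y ∉ A ++ p :: q :: B) ↔
    A ++ p :: y :: x :: q :: B ∈ Q) →
  (∀ A B : List N, (A ++ q :: p :: B ∈ Q ∧ x ∉ A ++ q :: p :: B ∧ y ∉ A ++ q :: p :: B) ↔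
    A ++ q :: x :: y :: p :: B ∈ Q) →
  Q.card % 2 = (Q.filter fun l => CL p q a x y l).card % 2

/-- the simple paths from `hub 0` to the last hub, as full lists of vertices -/
def isP (S : Stg) (l : List Nm) : Prop :=
  l.Nodup ∧ l.head? = some (hub 0) ∧ l.getLast? = some (hub S.length) ∧
    l.IsChain fun u v => adS S u v = true

/-- the gadgets: stage, route, number in the route, label -/
def gads (S : Stg) : List (ℕ × Bool × ℕ × Lb) :=
  S.zipIdx.flatMap fun p => (p.1.1.zipIdx.map fun q => (p.2, false, q.2, q.1)) ++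
    (p.1.2.zipIdx.map fun q => (p.2, true, q.2, q.1))

/-- clean at a gadget -/
def cln (g : ℕ × Bool × ℕ × Lb) (l : List Nm) : Prop :=
  CL (rv g.1 g.2.1 g.2.2.1) (rv g.1 g.2.1 (g.2.2.1 + 1)) (sh g.2.2.2) (xv g.1 g.2.1 g.2.2.1)
    (yv g.1 g.2.1 g.2.2.1) l

/-- CLEAN -/
def S_CLEAN : Prop := ∀ S : Stg, S ≠ [] →
  Nat.card {l : List Nm // isP S l} % 2 =
    Nat.card {l : List Nm // isP S l ∧ ∀ g ∈ gads S, cln g l} % 2

/-- the vertices of a route, in the order in which they are passed -/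
def word (k : ℕ) (α : Bool) (L : List Lb) : List Nm :=
  rv k α 0 :: L.zipIdx.flatMap fun p => [yv k α p.2, sh p.1, xv k α p.2, rv k α (p.2 + 1)]

/-- the path given by a choice of routes, from `hub k` on -/
def pth : ℕ → Stg → List Bool → List Nm
  | k, (P, Q) :: S, b :: bs => hub k :: (word k b (if b = true then Q else P) ++ pth (k + 1) S bs)
  | k, _, _ => [hub k]

/-- the labels on the path -/
def lbs : Stg → List Bool → List Lb
  | (P, Q) :: S, b :: bs => (if b = true then Q else P) ++ lbs S bs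
  | _, _ => []

/-- RUN1 -/
def S_RUN1 : Prop := ∀ (S : Stg) (bs : List Bool), bs.length = S.length → (lbs S bs).Nodup →
  isP S (pth 0 S bs) ∧ ∀ g ∈ gads S, cln g (pth 0 S bs)

/-- RUN2 -/
def S_RUN2 : Prop := ∀ (S : Stg) (l : List Nm), isP S l → (∀ g ∈ gads S, cln g l) →
  ∃ bs : List Bool, bs.length = S.length ∧ (lbs S bs).Nodup ∧ l = pth 0 S bs

/-- NC -/
def S_NC : Prop := ∀ S : Stg,
  nc S = Nat.card {bs : List Bool // bs.length = S.length ∧ (lbs S bs).Nodup}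

/-- INJ -/
def S_INJ : Prop := ∀ (S : Stg) (bs bs' : List Bool), bs.length = S.length →
  bs'.length = S.length → pth 0 S bs = pth 0 S bs' → bs = bs'

/-- NSP -/
def S_NSP : Prop := ∀ (S : Stg) (rest : List Nm), S ≠ [] →
  (hub 0 :: hub S.length :: rest).Nodup →
  (∀ p ∈ EE S, p.1 ∈ hub 0 :: hub S.length :: rest ∧ p.2 ∈ hub 0 :: hub S.length :: rest) →
  nsp (adS S) (hub 0) (hub S.length) rest = Nat.card {l : List Nm // isP S l}

end Pool.Agent.W894.HT
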