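import Pool.Agent.W894.HT.Lib
import Pool.Agent.W469.HT.Space
import Pool.Agent.W305.HT.Top
import Pool.Agent.W928.HTDfst
import Pool.Agent.W215.HTPstep
import Pool.Agent.W352.HTEval
import Pool.Agent.W131.HTMod4
import Pool.Agent.W639.HTChain
import Pool.Agent.W975.HTHp
import Pool.Agent.W327.HTCount
import Pool.Agent.W493.HTTour
import Pool.Agent.W493.HTMat
import Pool.Agent.W930.HTAddw
import Pool.Agent.W493.HTAddZW
import Pool.Agent.W493.HTRedei
import Pool.Agent.W352.HTTog
import Pool.Agent.W381.HTGad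
import Pool.Agent.W505.HTClean
import Pool.Agent.W505.HTRun1
import Pool.Agent.W494.HTRun2
import Pool.Agent.W315.HTNC
import Pool.Agent.W465.HTNsp
import Pool.Agent.W249.HTXhp
import Pool.Agent.W64.HTXbd
import Pool.Agent.W922.HTXalt
import Pool.Agent.W352.HTXMain
import Pool.Agent.W131.HTXnum
import Pool.Agent.W397.HTXmat
import Pool.Agent.W52.HTCNF
import Pool.Agent.W346.HTR.Rest
import Pool.Agent.W131.HTPtm
import Pool.Agent.W349.HTPstg
import Pool.Agent.W349.HTPadd
import Pool.Agent.W490.HTMem
import Pool.Agent.W352.HTCh3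
import Pool.Agent.W991.HT.Size
import Pool.Agent.W583.HTXred
import Pool.Agent.W253.HTZred
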