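import Pool.Agent.H549R2.NRed
import Pool.Agent.W894.HT.Gr
import Pool.Agent.W894.HT.Ex

/-!
# Project HT: complexity (definitions and statements)
-/

namespace Pool.Agent.W894.HT

open Pool.Agent.NPC Pool.Agent.NPC.Cnt
open Pool.Agent.NPC.H549NRed (NRed)

/-- The class parity-P: languages `{x | f x is odd}` with `f` in `#P`. -/
def InParityP (L : Set (List Bool)) : Prop :=
  ∃ f : List Bool → ℕ, SharpP f ∧ ∀ x, x ∈ L ↔ f x % 2 = 1

/-- completeness for parity-P under polynomial-time many-one reductions -/
def ParityPComplete (L : Set (List Bool)) : Prop :=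
  InParityP L ∧ ∀ L', InParityP L' → Reduces L' L

/-- removal of repetitions -/
def ddg {N : Type} [DecidableEq N] (l : List N) : List N :=
  l.foldr (fun a s => if a ∈ s then s else a :: s) []

/-- the copies of the assignment of `b` to the variable `v`, one for each literal occurrence -/
def occ (φ : CNF ℕ) (v : ℕ) (b : Bool) : List Lb :=
  φ.zipIdx.flatMap fun p => (List.range p.1.length).map fun r => (v, p.2, r, b)

/-- the stage of a variable -/
def vst (φ : CNF ℕ) (v : ℕ) : List Lb × List Lb := (occ φ v false, occ φ v true)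

/-- the stage of a clause -/
def cst (c : List (Bool × ℕ)) (j : ℕ) : List Lb × List Lb :=
  ([], c.zipIdx.map fun q => (q.1.2, j, q.2, q.1.1))

/-- the stages of a formula (the first one can be passed in one way) -/
def stg (φ : CNF ℕ) : Stg :=
  ([], [(0, 0, 0, false), (0, 0, 0, false)]) ::
    ((ddg (φ.flatten.map Prod.snd)).map (vst φ) ++ φ.zipIdx.map fun p => cst p.1 p.2)

/-- CNF: the number of choices has the parity of the number of satisfying assignments. -/
def S_CNF : Prop := ∀ φ : CNF ℕ, nc (stg φ) % 2 = satCount φ % 2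

/-- the vertices of the graph other than the first and the last hub -/
def restS (S : Stg) : List Nm :=
  (ddg ((EE S).flatMap fun p => [p.1, p.2])).filter fun v =>
    !decide (v = hub 0) && !decide (v = hub S.length)

/-- the tournament of a list of stages -/
def TM (S : Stg) : List (List Bool) := tm (adS S) (wv (hub 0) (hub S.length) (restS S))

/-- REST -/
def S_REST : Prop := ∀ S : Stg, S ≠ [] → (hub 0 :: hub S.length :: restS S).Nodup ∧
  ∀ p ∈ EE S, p.1 ∈ hub 0 :: hub S.length :: restS S ∧ p.2 ∈ hub 0 :: hub S.length :: restS S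

/-- PTM -/
def S_PTM : Prop := Poly TM

/-- PSTG -/
def S_PSTG : Prop := Poly stg

/-- PADD -/
def S_PADD : Prop := Poly (fun p : List (List Bool) × ℕ => addW p.1 p.2) ∧ Poly addZW

open Classical in
/-- Hamiltonian paths of tournaments, `0` for other matrices -/
noncomputable def hpT (A : List (List Bool)) : ℕ := if IsTour A then numHP A else 0

open Classical in
/-- Hamiltonian paths of tournaments from a given vertex, `0` for other inputs -/
noncomputable def hsT (x : List (List Bool) × ℕ) : ℕ :=
  if IsTour x.1 ∧ x.2 < x.1.length then numHS x.1 x.2 else 0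

open Classical in
/-- Hamiltonian cycles of tournaments, `0` for other matrices -/
noncomputable def hcT (A : List (List Bool)) : ℕ := if IsTour A then numHC A else 0

/-- MEM -/
def S_MEM : Prop := SharpP (strFn hpT) ∧ SharpP (strFn hsT) ∧ SharpP (strFn hcT)

/-- CH3 -/
def S_CH3 : Prop := ∀ f : List Bool → ℕ, SharpP f → SharpP (fun x => (f x).choose 3)

/-- SIZE -/
def S_SIZE : Prop := ∃ r : Polynomial ℕ, ∀ A : List (List Bool),
  (hpT A).size ≤ r.eval (sz A) ∧ (hcT A).size ≤ r.eval (sz A)

/-- XRED -/
def S_XRED : Prop := NRed (fun _ : List (List Bool) => True) Pool.Agent.H549R2.Convex.F IsTour numHP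

/-- ZRED -/
def S_ZRED : Prop := NRed IsTour numHP IsTour numHC

end Pool.Agent.W894.HT
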