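import Pool.Agent.W894.HT.Fin3
import Pool.Agent.W577.HMTg
import Pool.Agent.W125.HMEvg
import Pool.Agent.W800.HMQstep
import Pool.Agent.W327.HM.Loc
import Pool.Agent.W303.HMWgraph
import Pool.Agent.W790.HMWclean
import Pool.Agent.W696.HMWpth
import Pool.Agent.W179.HMWgad
import Pool.Agent.W975.HMWtog
import Pool.Agent.W22.HMGW
import Pool.Agent.W839.HM.Sub
import Pool.Agent.W320.HMBlock
import Pool.Agent.W215.HMHead

/-!
# Project HT, second part: assembly
-/

namespace Pool.Agent.W894.HT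

theorem mtg : S_TG := Pool.Agent.W577.HMTg.main Pool.Agent.W639.HTChain.main space
  (Pool.Agent.W125.HMEvg.main (Pool.Agent.W320.HMBlock.main Pool.Agent.W215.HMHead.main)
    Pool.Agent.W928.HTDfst.main Pool.Agent.W800.HMQstep.mainQ)

theorem mgw : S_GW := Pool.Agent.W22.HMGW.main

theorem mwgraph : S_WGRAPH := Pool.Agent.W303.HMWgraph.main
  (Pool.Agent.W790.HMWclean.main (Pool.Agent.W179.HMWgad.main Pool.Agent.W975.HMWtog.main) mgw)
  (Pool.Agent.W696.HMWpth.main mgw) mgw

theorem mloc : S_LOC := Pool.Agent.W327.HMLoc.main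

theorem msub : S_SUB := Pool.Agent.W839.HM.main

end Pool.Agent.W894.HT
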