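import Pool.Agent.W894.HT.MImp
import Pool.Agent.W108.HNCast
import Pool.Agent.W215.HNIdx
import Pool.Agent.W641.HNWok
import Pool.Agent.W338.HNMpt
import Pool.Agent.W885.HNScnf
import Pool.Agent.W215.HNPtmp
import Pool.Agent.W976.HNMemp
import Pool.Agent.W320.HNChk
import Pool.Agent.W340.HNDig
import Pool.Agent.W991.HNCrt
import Pool.Agent.W19.HN.Modm
import Pool.Agent.W308.HNOdd

/-!
# Project HT, second part: assembly of the library part
-/

namespace Pool.Agent.W894.HT

theorem nmpt : S_MPT := Pool.Agent.W338.HNMpt.main Pool.Agent.W108.HNCast.main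
  Pool.Agent.W215.HNIdx.main Pool.Agent.W641.HNWok.main mtg mloc msub

theorem nscnf : S_SCNF := Pool.Agent.W885.HNScnf.main

theorem nptmp : S_PTMP := Pool.Agent.W215.HNPtmp.main

theorem nmemp : S_MEMP := Pool.Agent.W976.HNMemp.main

theorem nchk : S_CHK := Pool.Agent.W320.HNChk.main

theorem ndig : S_DIG := Pool.Agent.W340.HNDig.main

theorem ncrt : S_CRT := Pool.Agent.W991.HNCrt.main

theorem nodd : S_ODD := Pool.Agent.W308.HNOdd.main

end Pool.Agent.W894.HT
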